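import Pool.Agent.H66.L.S8.Y330.F.D11

set_option autoImplicit false
set_option linter.unusedSectionVars false

open scoped Manifold ContDiff Topology
open Set Filter

namespace Pool.Agent.Y330.F

open Pool.Agent.H721R2 Pool.Agent.H789R2.AN

variable {E : Type*} [NormedAddCommGroup E] [NormedSpace ℝ E] [FiniteDimensional ℝ E]
  {M : Type*} [TopologicalSpace M] [T2Space M] [CompactSpace M] [ConnectedSpace M]
  [ChartedSpace E M] [IsManifold 𝓘(ℝ, E) ∞ M]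

theorem dg_iter_fix {f : M → M} (hf : ContMDiff 𝓘(ℝ, E) 𝓘(ℝ, E) 1 f) {p : M} (hp : f p = p)
    {v : E} {r : ℝ} (hr : dg E f p v = r • v) (n : ℕ) : dg E (f^[n]) p v = r ^ n • v := by
  induction n with
  | zero =>
    rw [pow_zero, one_smul]
    show mfderiv 𝓘(ℝ, E) 𝓘(ℝ, E) id p v = v
    rw [mfderiv_id]; rfl
  | succ n ih =>
    rw [Function.iterate_succ, dg_comp f (f^[n]) hf (iter_smooth f hf n), hp, hr, map_smul, ih,
      smul_smul, pow_succ, mul_comm]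

theorem iter_fix {f : M → M} {p : M} (hp : f p = p) (n : ℕ) : f^[n] p = p := by
  have : Function.IsFixedPt f p := hp
  exact this.iterate n

/-- The sign condition holds when all regular elements are Anosov. -/
theorem sign_of_anosov {G J : Type*} [AddCommGroup G]
    (α : G → Diffeomorph 𝓘(ℝ, E) 𝓘(ℝ, E) M M 1)
    (χ : J → G →+ ℝ) (F : J → ∀ x : M, Submodule ℝ (TangentSpace 𝓘(ℝ, E) x))
    (hF : ∀ a j, InvariantField (α a) (F j)) (i : J)
    (h1 : ∀ x, Module.finrank ℝ (F i x) = 1)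
    (hA : ∀ a, (∀ l, χ l a ≠ 0) → IsAnosov (α a) (negField χ F a) (posField χ F a))
    (a : G) (ha : ∀ l, χ l a ≠ 0) : SignCondition α χ F i := by
  obtain ⟨N, -, -, hN, -⟩ := (hA a ha).rates
  refine ⟨N, hN, fun b hb hib p hp v hv hv0 => ?_⟩
  obtain ⟨N', C, l, hN', hC, hl0, hl1, hs, -⟩ := (hA b hb).rates
  -- the eigenvalue
  have hex : ∃ r : ℝ, dg E (α b) p v = r • v := by
    obtain ⟨⟨w, hw⟩, hw0, hspan⟩ := finrank_eq_one_iff'.mp (h1 p)
    obtain ⟨c, hc⟩ := hspan ⟨v, hv⟩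
    have hc' : c • w = v := congrArg Subtype.val hc
    have hmem : dg E (α b) p v ∈ F i p := by
      have h2 : (F i p).map (mfderiv 𝓘(ℝ, E) 𝓘(ℝ, E) (α b) p).toLinearMap = F i (α b p) :=
        hF b i p
      have h3 : dg E (α b) p v ∈ F i (α b p) := by
        rw [← h2]
        exact ⟨v, hv, rfl⟩
      have h4 : F i (α b p) = F i p := by rw [hp]
      exact h4 ▸ h3
    obtain ⟨d, hd⟩ := hspan ⟨dg E (α b) p v, hmem⟩
    have hd' : d • w = dg E (α b) p v := congrArg Subtype.val hd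
    have hc0 : c ≠ 0 := by
      rintro rfl
      rw [zero_smul] at hc'
      exact hv0 hc'.symm
    refine ⟨d / c, ?_⟩
    have h5 : (d / c) • (c • w) = d • w := by rw [smul_smul, div_mul_cancel₀ _ hc0]
    rw [hc'] at h5
    exact hd'.symm.trans h5.symm
  obtain ⟨r, hr⟩ := hex
  have hsm : ContMDiff 𝓘(ℝ, E) 𝓘(ℝ, E) 1 (α b) := (α b).contMDiff
  have htan : ∀ (n : ℕ) (N : TangentBundle 𝓘(ℝ, E) M → ℝ), IsTangentNorm N →
      N (tangentMap 𝓘(ℝ, E) 𝓘(ℝ, E) ((α b)^[n]) ⟨p, v⟩) = |r| ^ n * N ⟨p, v⟩ := by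
    intro n N hN
    have h9 : tangentMap 𝓘(ℝ, E) 𝓘(ℝ, E) ((α b)^[n]) ⟨p, v⟩ =
        (⟨(α b)^[n] p, dg E ((α b)^[n]) p v⟩ : TangentBundle 𝓘(ℝ, E) M) := rfl
    rw [h9, dg_iter_fix hsm hp hr, iter_fix hp, ← abs_pow]
    exact hN.smul p (r ^ n) v
  have hr1 : |r| < 1 := by
    by_contra hcon
    push Not at hcon
    have hvN : 0 < N' ⟨p, v⟩ := hN'.pos p v hv0
    have hlim : Tendsto (fun n : ℕ => C * l ^ n) atTop (𝓝 0) := by
      have := (tendsto_pow_atTop_nhds_zero_of_lt_one hl0.le hl1).const_mul C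
      simpa using this
    obtain ⟨n, hn⟩ := ((tendsto_order.mp hlim).2 1 one_pos).exists
    have h2 := hs n p v (by
      exact (le_iSup (fun k : {k // χ k b < 0} => F k p) ⟨i, hib⟩) hv)
    rw [htan n N' hN'] at h2
    have h3 : 1 ≤ |r| ^ n := one_le_pow₀ hcon
    nlinarith
  have h2 := htan 1 N hN
  rw [Function.iterate_one, pow_one] at h2
  rw [h2]
  have hvN : 0 < N ⟨p, v⟩ := hN.pos p v hv0
  nlinarith

/-- Version for totally Anosov actions. -/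
theorem paired_totally {G J : Type*} [AddCommGroup G] [Finite J]
    (α : G → Diffeomorph 𝓘(ℝ, E) 𝓘(ℝ, E) M M 1)
    (hα2 : ∀ g, ContMDiff 𝓘(ℝ, E) 𝓘(ℝ, E) 2 (α g)) (hα : ∀ a b x, α (a + b) x = α a (α b x))
    (χ : J → G →+ ℝ) (F : J → ∀ x : M, Submodule ℝ (TangentSpace 𝓘(ℝ, E) x))
    (hF : ∀ a j, InvariantField (α a) (F j))
    (hpair : ∀ i j, ∀ c : ℝ, 0 < c → (∀ g, χ i g = -c * χ j g) →
      (∀ x, Module.finrank ℝ (F i x) = 1) ∧ Dense (range (χ i)) ∧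
      ∀ k, ∀ c' : ℝ, 0 < c' → (∀ g, χ k g = c' * χ i g) → k = i)
    (hA : ∀ a, (∀ l, χ l a ≠ 0) → IsAnosov (α a) (negField χ F a) (posField χ F a))
    (a : G) (ha : ∀ l, χ l a ≠ 0) : TopTransitive (α a) := by
  refine paired_main α hα2 hα χ F hF ?_ (fun a ha => ⟨a, fun l => ?_, hA a ha⟩) a ha (hA a ha)
  · intro i j c hc hcg
    obtain ⟨h1, h2, h3⟩ := hpair i j c hc hcg
    exact ⟨h1, h2, sign_of_anosov α χ F hF i h1 hA a ha, h3⟩
  · exact mul_self_pos.mpr (ha l)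

end Pool.Agent.Y330.F
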