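import Pool.Agent.H66.L.S8.H789R2.AN.TNS
import Pool.Agent.H66.L.S8.Y330.G.A3

set_option autoImplicit false

open Filter Topology Set Metric

namespace Pool.Agent.Y330.F

open Pool.Agent.H789R2.AN Pool.Agent.Y330.G

variable {X : Type*} [MetricSpace X]

/-- Relative contraction of the local stable sets. -/
def Ctr (g : X ≃ₜ X) (ε₀ : ℝ) : Prop :=
  ∀ x y, SR g ε₀ x y → ∀ n : ℕ, dist (g^[n] x) (g^[n] y) ≤ (1 / 2) ^ n * dist x y

theorem half_pow_le (n : ℕ) : (1 / 2 : ℝ) ^ n ≤ 1 := pow_le_one₀ (by norm_num) (by norm_num)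

theorem Ctr.mono {g : X ≃ₜ X} {ε ε' : ℝ} (h : Ctr g ε) (he : ε' ≤ ε) : Ctr g ε' :=
  fun x y hxy => h x y (hxy.mono he)

theorem Ctr.sr {g : X ≃ₜ X} {ε₀ ε : ℝ} (h : Ctr g ε₀) {x y : X} (hxy : SR g ε₀ x y)
    (hd : dist x y ≤ ε) : SR g ε x y := fun k => by
  have h1 := h x y hxy k
  have h2 : (1 / 2 : ℝ) ^ k * dist x y ≤ 1 * dist x y :=
    mul_le_mul_of_nonneg_right (half_pow_le k) dist_nonneg
  linarith

theorem Ctr.ws {g : X ≃ₜ X} {ε₀ : ℝ} (h : Ctr g ε₀) {x y : X} (hxy : SR g ε₀ x y) :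
    WS g x y := WS.of_SR (c := dist x y) fun n => by
  have := h x y hxy n
  linarith

theorem sr_refl (g : X ≃ₜ X) {ε : ℝ} (hε : 0 ≤ ε) (x : X) : SR g ε x x := fun k => by
  rw [dist_self]; exact hε

theorem sr_it {g : X ≃ₜ X} {ε : ℝ} {x y : X} (h : SR g ε x y) (m : ℕ) :
    SR g ε (g^[m] x) (g^[m] y) := fun k => by
  rw [← Function.iterate_add_apply, ← Function.iterate_add_apply]
  exact h _

theorem sr_step {g : X ≃ₜ X} {ε : ℝ} {x y : X} (h : SR g ε x y) : SR g ε (g x) (g y) := sr_it h 1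

/-- going back in time inside the unstable relation gives the stable relation -/
theorem Ctr.expans {g : X ≃ₜ X} {ε₀ : ℝ} (h : Ctr g ε₀) {x y : X}
    (h1 : SR g ε₀ x y) (h2 : SR g.symm ε₀ x y) : x = y := by
  have h3 : ∀ n : ℕ, dist x y ≤ ε₀ * (1 / 2) ^ n := by
    intro n
    have h4 : SR g ε₀ (g.symm^[n] x) (g.symm^[n] y) := by
      intro k
      rcases le_total k n with hk | hk
      · rw [fw g hk, fw g hk]; exact h2 _
      · rw [fw' g hk, fw' g hk]; exact h1 _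
    have h5 := h _ _ h4 n
    rw [iterR, iterR] at h5
    have h6 : (1 / 2 : ℝ) ^ n * dist (g.symm^[n] x) (g.symm^[n] y) ≤ (1 / 2) ^ n * ε₀ :=
      mul_le_mul_of_nonneg_left (h2 n) (by positivity)
    linarith
  have h7 : Tendsto (fun n : ℕ => ε₀ * (1 / 2 : ℝ) ^ n) atTop (𝓝 0) := by
    have := (tendsto_pow_atTop_nhds_zero_of_lt_one (by norm_num : (0:ℝ) ≤ 1 / 2)
      (by norm_num)).const_mul ε₀
    simpa using this
  have h8 : dist x y ≤ 0 := ge_of_tendsto' h7 h3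
  exact dist_le_zero.mp h8

/-- uniform asymptotics of two families -/
def UW {ι : Type*} (g : X ≃ₜ X) (x y : ι → X) : Prop :=
  ∀ ε > 0, ∃ n₀ : ℕ, ∀ n ≥ n₀, ∀ i, dist (g^[n] (x i)) (g^[n] (y i)) ≤ ε

namespace UW

variable {ι : Type*} {g : X ≃ₜ X} {x y z : ι → X}

theorem symm (h : UW g x y) : UW g y x := fun ε hε => by
  obtain ⟨n₀, hn⟩ := h ε hε
  exact ⟨n₀, fun n h1 i => by rw [dist_comm]; exact hn n h1 i⟩

theorem trans (h : UW g x y) (h' : UW g y z) : UW g x z := fun ε hε => by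
  obtain ⟨n₀, hn⟩ := h (ε / 2) (half_pos hε)
  obtain ⟨n₁, hn'⟩ := h' (ε / 2) (half_pos hε)
  refine ⟨max n₀ n₁, fun n h1 i => ?_⟩
  have h2 := hn n ((le_max_left _ _).trans h1) i
  have h3 := hn' n ((le_max_right _ _).trans h1) i
  have := dist_triangle (g^[n] (x i)) (g^[n] (y i)) (g^[n] (z i))
  linarith

theorem of_SR {ε₀ : ℝ} (hc : Ctr g ε₀) (h : ∀ i, SR g ε₀ (x i) (y i)) : UW g x y := fun ε hε => by
  obtain ⟨n₀, hn⟩ := pw (c := ε₀) hε
  refine ⟨n₀, fun n h1 i => ?_⟩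
  have h2 := hc _ _ (h i) n
  have h3 : dist (x i) (y i) ≤ ε₀ := h i 0
  have h0 : 0 ≤ ε₀ := dist_nonneg.trans h3
  have h4 : (1 / 2 : ℝ) ^ n * dist (x i) (y i) ≤ (1 / 2) ^ n * ε₀ :=
    mul_le_mul_of_nonneg_left h3 (by positivity)
  have h5 : ε₀ * (1 / 2 : ℝ) ^ n ≤ ε₀ * (1 / 2) ^ n₀ :=
    mul_le_mul_of_nonneg_left (pow_le_pow_of_le_one (by norm_num) (by norm_num) h1) h0
  linarith

theorem map [CompactSpace X] {b : X → X} (hb : Continuous b) (hc : ∀ x, b (g x) = g (b x))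
    (h : UW g x y) : UW g (fun i => b (x i)) (fun i => b (y i)) := fun ε hε => by
  obtain ⟨η, hη, hη'⟩ := Metric.uniformContinuous_iff.mp
    (CompactSpace.uniformContinuous_of_continuous hb) ε hε
  obtain ⟨n₀, hn⟩ := h (η / 2) (half_pos hη)
  have hit : ∀ (n : ℕ) (p : X), b (g^[n] p) = g^[n] (b p) := fun n p => by
    induction n with
    | zero => rfl
    | succ n ih => rw [Function.iterate_succ_apply', Function.iterate_succ_apply', hc, ih]
  refine ⟨n₀, fun n h1 i => ?_⟩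
  rw [← hit, ← hit]
  exact (hη' (lt_of_le_of_lt (hn n h1 i) (by linarith))).le

theorem comp {κ : Type*} (f : κ → ι) (h : UW g x y) : UW g (fun k => x (f k)) (fun k => y (f k)) :=
  fun ε hε => by
    obtain ⟨n₀, hn⟩ := h ε hε
    exact ⟨n₀, fun n h1 i => hn n h1 (f i)⟩

end UW

section paths

variable {ι : Type*} [TopologicalSpace ι] [PreconnectedSpace ι] {g : X ≃ₜ X} {x y : ι → X}

theorem closed_SR (g : X ≃ₜ X) (ε : ℝ) {ι : Type*} [TopologicalSpace ι] {x y : ι → X}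
    (hx : Continuous x) (hy : Continuous y) : IsClosed {i | SR g ε (x i) (y i)} := by
  have : {i | SR g ε (x i) (y i)} = ⋂ k : ℕ, {i | dist (g^[k] (x i)) (g^[k] (y i)) ≤ ε} := by
    ext i; simp [SR]
  rw [this]
  exact isClosed_iInter fun k => isClosed_le
    (((g.continuous.iterate k).comp hx).dist ((g.continuous.iterate k).comp hy)) continuous_const

/-- Local openness of the stable relation inside uniformly asymptotic families. -/
theorem open_SR {ι : Type*} [TopologicalSpace ι] {g : X ≃ₜ X} {x y : ι → X}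
    (hx : Continuous x) (hy : Continuous y) (hu : UW g x y) {ε₀ : ℝ} (hε₀ : 0 < ε₀) {i : ι}
    (hi : ∀ n : ℕ, dist (g^[n] (x i)) (g^[n] (y i)) < ε₀) : ∀ᶠ j in 𝓝 i, SR g ε₀ (x j) (y j) := by
  obtain ⟨n₀, hn⟩ := hu ε₀ hε₀
  have h1 : ∀ n ∈ Finset.range n₀, ∀ᶠ j in 𝓝 i, dist (g^[n] (x j)) (g^[n] (y j)) < ε₀ := by
    intro n _
    have hcont : Continuous fun j => dist (g^[n] (x j)) (g^[n] (y j)) :=
      ((g.continuous.iterate n).comp hx).dist ((g.continuous.iterate n).comp hy)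
    exact (isOpen_lt hcont continuous_const).mem_nhds (hi n)
  filter_upwards [(Filter.eventually_all_finset _).mpr h1] with j hj
  intro n
  rcases lt_or_ge n n₀ with h | h
  · exact (hj n (Finset.mem_range.mpr h)).le
  · exact hn n h j

/-- **Path principle**. -/
theorem path_SR {ε₀ ε : ℝ} (hc : Ctr g ε₀) (hε : ε < ε₀) (hx : Continuous x) (hy : Continuous y)
    (hu : UW g x y) (hd : ∀ i, dist (x i) (y i) ≤ ε) (i₀ : ι) (hi₀ : SR g ε₀ (x i₀) (y i₀)) :
    ∀ i, SR g ε (x i) (y i) := by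
  have hε0 : 0 ≤ ε := dist_nonneg.trans (hd i₀)
  have hcl : IsClopen {i | SR g ε₀ (x i) (y i)} := by
    refine ⟨closed_SR g ε₀ hx hy, ?_⟩
    rw [isOpen_iff_mem_nhds]
    intro i hi
    apply open_SR hx hy hu (by linarith)
    intro n
    have h1 := hc _ _ hi n
    have h2 : (1 / 2 : ℝ) ^ n * dist (x i) (y i) ≤ 1 * dist (x i) (y i) :=
      mul_le_mul_of_nonneg_right (half_pow_le n) dist_nonneg
    have h3 := hd i
    linarith
  have := hcl.eq_univ ⟨i₀, hi₀⟩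
  intro i
  have h1 : i ∈ {i | SR g ε₀ (x i) (y i)} := by rw [this]; trivial
  exact hc.sr h1 (hd i)

/-- **Uniqueness principle**. -/
theorem path_eq {ε₀ : ℝ} (hε₀ : 0 < ε₀) (hc : Ctr g ε₀) (hx : Continuous x) (hy : Continuous y)
    (hu : UW g x y) (hu' : UW g.symm x y) (i₀ : ι) (hi₀ : x i₀ = y i₀) : ∀ i, x i = y i := by
  have hcl : IsClopen {i | x i = y i} := by
    refine ⟨isClosed_eq hx hy, ?_⟩
    rw [isOpen_iff_mem_nhds]
    intro i hi
    have hi' : x i = y i := hi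
    have h1 := open_SR hx hy hu hε₀ (i := i) (fun n => by rw [hi', dist_self]; exact hε₀)
    have h2 := open_SR hx hy hu' hε₀ (i := i) (fun n => by rw [hi', dist_self]; exact hε₀)
    filter_upwards [h1, h2] with j hj1 hj2
    exact hc.expans hj1 hj2
  have := hcl.eq_univ ⟨i₀, hi₀⟩
  intro i
  have h1 : i ∈ {i | x i = y i} := by rw [this]; trivial
  exact h1

end paths

/-- Continuity from a closed graph. -/
theorem cont_of_graph [CompactSpace X] {ι : Type*} [TopologicalSpace ι] {f : ι → X}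
    {P : ι → X → Prop} (hP : IsClosed {p : ι × X | P p.1 p.2}) (hf : ∀ i, P i (f i))
    (hun : ∀ i z, P i z → z = f i) : Continuous f := by
  rw [continuous_iff_continuousAt]
  intro i
  apply tendsto_nhds_of_unique_mapClusterPt
  intro z hz
  apply hun i z
  have h1 : (i, z) ∈ closure {p : ι × X | P p.1 p.2} := by
    rw [mem_closure_iff_nhds]
    intro W hW
    rw [nhds_prod_eq] at hW
    obtain ⟨U, hU, V, hV, hUV⟩ := Filter.mem_prod_iff.mp hW
    have h2 := (mapClusterPt_iff_frequently.mp hz) V hV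
    obtain ⟨j, hj1, hj2⟩ := (h2.and_eventually hU).exists
    exact ⟨(j, f j), hUV ⟨hj2, hj1⟩, hf j⟩
  rw [hP.closure_eq] at h1
  exact h1

section pair

variable {g h : X ≃ₜ X} {ε₀ : ℝ}

/-- two stable relations -/
def R2 (g h : X ≃ₜ X) (ε : ℝ) (x y : X) : Prop := SR g ε x y ∧ SR h ε x y

theorem R2.symm {ε : ℝ} {x y : X} (hr : R2 g h ε x y) : R2 g h ε y x := ⟨hr.1.symm', hr.2.symm'⟩

theorem R2.mono {ε ε' : ℝ} {x y : X} (hr : R2 g h ε x y) (he : ε ≤ ε') : R2 g h ε' x y :=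
  ⟨hr.1.mono he, hr.2.mono he⟩

theorem R2.trans {ε ε' : ℝ} {x y z : X} (hr : R2 g h ε x y) (hr' : R2 g h ε' y z) :
    R2 g h (ε + ε') x z := ⟨sr_tr hr.1 hr'.1, sr_tr hr.2 hr'.2⟩

theorem R2.swap {ε : ℝ} {x y : X} (hr : R2 g h ε x y) : R2 h g ε x y := ⟨hr.2, hr.1⟩

theorem uc1 [CompactSpace X] {b : X → X} (hb : Continuous b) {η : ℝ} (hη : 0 < η) :
    ∃ δ > 0, ∀ x y, dist x y ≤ δ → dist (b x) (b y) ≤ η := by
  obtain ⟨δ, hδ, h⟩ := Metric.uniformContinuous_iff.mp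
    (CompactSpace.uniformContinuous_of_continuous hb) η hη
  exact ⟨δ / 2, half_pos hδ, fun x y hxy => (h (lt_of_le_of_lt hxy (by linarith))).le⟩

omit [MetricSpace X] in
theorem comm_it {b g : X → X} (hc : ∀ x, b (g x) = g (b x)) (n : ℕ) (x : X) :
    b (g^[n] x) = g^[n] (b x) := by
  induction n with
  | zero => rfl
  | succ n ih => rw [Function.iterate_succ_apply', Function.iterate_succ_apply', hc, ih]

/-- Joint contraction on the intersection of two local stable sets. -/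
theorem joint [CompactSpace X] (hε₀ : 0 < ε₀) (hc : ∀ x, h (g x) = g (h x)) (hg : Ctr g ε₀)
    (hh : Ctr h ε₀) : ∃ ε₁ > 0, ε₁ ≤ ε₀ ∧ ∀ x y, R2 g h ε₁ x y →
      ∀ n m : ℕ, R2 g h ((1 / 2) ^ (n + m) * dist x y) (g^[n] (h^[m] x)) (g^[n] (h^[m] y)) := by
  obtain ⟨δ₁, hδ₁, h1⟩ := uc1 (b := g) g.continuous hε₀
  obtain ⟨δ₂, hδ₂, h2⟩ := uc1 (b := h) h.continuous hε₀
  refine ⟨min ε₀ (min δ₁ δ₂), lt_min hε₀ (lt_min hδ₁ hδ₂), min_le_left _ _, ?_⟩
  have hm1 : min ε₀ (min δ₁ δ₂) ≤ ε₀ := min_le_left _ _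
  have hm2 : min ε₀ (min δ₁ δ₂) ≤ δ₁ := (min_le_right _ _).trans (min_le_left _ _)
  have hm3 : min ε₀ (min δ₁ δ₂) ≤ δ₂ := (min_le_right _ _).trans (min_le_right _ _)
  have hc' : ∀ x, g (h x) = h (g x) := fun x => (hc x).symm
  have stepg : ∀ x y, R2 g h (min ε₀ (min δ₁ δ₂)) x y →
      R2 g h (1 / 2 * dist x y) (g x) (g y) := by
    intro x y hxy
    have e1 : dist (g x) (g y) ≤ 1 / 2 * dist x y := by
      have := hg x y (hxy.1.mono hm1) 1
      simpa using this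
    have e3 : SR h ε₀ (g x) (g y) := fun k => by
      rw [← comm_it hc' k x, ← comm_it hc' k y]
      exact h1 _ _ ((hxy.2 k).trans hm2)
    exact ⟨hg.sr (sr_step (hxy.1.mono hm1)) e1, hh.sr e3 e1⟩
  have steph : ∀ x y, R2 g h (min ε₀ (min δ₁ δ₂)) x y →
      R2 g h (1 / 2 * dist x y) (h x) (h y) := by
    intro x y hxy
    have e1 : dist (h x) (h y) ≤ 1 / 2 * dist x y := by
      have := hh x y (hxy.2.mono hm1) 1
      simpa using this
    have e3 : SR g ε₀ (h x) (h y) := fun k => by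
      rw [← comm_it hc k x, ← comm_it hc k y]
      exact h2 _ _ ((hxy.1 k).trans hm3)
    exact ⟨hg.sr e3 e1, hh.sr (sr_step (hxy.2.mono hm1)) e1⟩
  intro x y hxy
  have hd : dist x y ≤ min ε₀ (min δ₁ δ₂) := hxy.1 0
  have small : ∀ k : ℕ, (1 / 2 : ℝ) ^ k * dist x y ≤ min ε₀ (min δ₁ δ₂) := fun k => by
    have : (1 / 2 : ℝ) ^ k * dist x y ≤ 1 * dist x y :=
      mul_le_mul_of_nonneg_right (half_pow_le k) dist_nonneg
    linarith
  have hfirst : ∀ m : ℕ, R2 g h ((1 / 2) ^ m * dist x y) (h^[m] x) (h^[m] y) := by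
    intro m
    induction m with
    | zero =>
      simp only [pow_zero, one_mul, Function.iterate_zero, id_eq]
      exact ⟨hg.sr (hxy.1.mono hm1) le_rfl, hh.sr (hxy.2.mono hm1) le_rfl⟩
    | succ m ih =>
      rw [Function.iterate_succ_apply', Function.iterate_succ_apply']
      refine (steph _ _ (ih.mono (small m))).mono ?_
      have h3 : dist (h^[m] x) (h^[m] y) ≤ (1 / 2) ^ m * dist x y := ih.1 0
      rw [pow_succ]; linarith
  intro n m
  induction n with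
  | zero => simpa using hfirst m
  | succ n ih =>
    rw [Function.iterate_succ_apply', Function.iterate_succ_apply']
    refine (stepg _ _ (ih.mono (small (n + m)))).mono ?_
    have h3 : dist (g^[n] (h^[m] x)) (g^[n] (h^[m] y)) ≤ (1 / 2) ^ (n + m) * dist x y := ih.1 0
    have : (1 / 2 : ℝ) ^ (n + 1 + m) = (1 / 2) ^ (n + m) * (1 / 2) := by
      rw [show n + 1 + m = (n + m) + 1 by ring, pow_succ]
    rw [this]; linarith

/-- local product structure, as a separate statement -/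
def Lpr (g : X ≃ₜ X) : Prop :=
  ∀ ε > 0, ∃ δ > 0, ∀ x y, dist x y < δ → ∃ z, SR g ε x z ∧ SR g.symm ε y z

/-- The bracket of two points of a local stable set of a commuting homeomorphism stays in it. -/
theorem brk [CompactSpace X] (hε₀ : 0 < ε₀) (hc : ∀ x, h (g x) = g (h x)) (hg : Ctr g ε₀)
    (hl : Lpr g) {ε : ℝ} (hε : 0 < ε) :
    ∃ δ > 0, ∀ x y, SR h δ x y → ∃ z, SR g ε x z ∧ SR g.symm ε y z ∧ SR h ε x z := by
  obtain ⟨δ₁, hδ₁, h1⟩ := uc1 (b := h) h.continuous (half_pos hε₀)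
  set ε' := min ε (min δ₁ (ε₀ / 2)) with hε'
  have hε'0 : 0 < ε' := lt_min hε (lt_min hδ₁ (half_pos hε₀))
  have he1 : ε' ≤ ε := min_le_left _ _
  have he2 : ε' ≤ δ₁ := (min_le_right _ _).trans (min_le_left _ _)
  have he3 : ε' ≤ ε₀ / 2 := (min_le_right _ _).trans (min_le_right _ _)
  obtain ⟨δ, hδ, hlp⟩ := hl ε' hε'0
  refine ⟨δ / 2, half_pos hδ, fun x y hxy => ?_⟩
  have hz : ∀ n : ℕ, ∃ z, SR g ε' (h^[n] x) z ∧ SR g.symm ε' (h^[n] y) z := fun n =>
    hlp _ _ (lt_of_le_of_lt (hxy n) (by linarith))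
  choose z hz1 hz2 using hz
  have hc' : ∀ x, g (h x) = h (g x) := fun x => (hc x).symm
  have hcs : ∀ x, h (g.symm x) = g.symm (h x) := comm_symm_right hc
  have key : ∀ n : ℕ, h^[n] (z 0) = z n := by
    intro n
    induction n with
    | zero => rfl
    | succ n ih =>
      rw [Function.iterate_succ_apply', ih]
      have a1 : SR g (ε₀ / 2) (h^[n + 1] x) (h (z n)) := fun k => by
        rw [Function.iterate_succ_apply' h, ← comm_it hc k, ← comm_it hc k]
        exact h1 _ _ ((hz1 n k).trans he2)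
      have a2 : SR g.symm (ε₀ / 2) (h^[n + 1] y) (h (z n)) := fun k => by
        rw [Function.iterate_succ_apply' h, ← comm_it hcs k, ← comm_it hcs k]
        exact h1 _ _ ((hz2 n k).trans he2)
      have b1 := sr_tr a1.symm' ((hz1 (n + 1)).mono he3)
      have b2 := sr_tr a2.symm' ((hz2 (n + 1)).mono he3)
      rw [add_halves] at b1 b2
      exact hg.expans b1 b2
  refine ⟨z 0, (hz1 0).mono he1, (hz2 0).mono he1, fun n => ?_⟩
  rw [key n]
  exact (hz1 n 0).trans he1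

end pair

end Pool.Agent.Y330.F
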