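import Pool.Agent.H66.L.S8.Y330.F.A1

set_option autoImplicit false

open Filter Topology Set Metric

namespace Pool.Agent.Y330.F

open Pool.Agent.H789R2.AN Pool.Agent.Y330.G Pool.Agent.H721R2

variable {X : Type*} [MetricSpace X]

/-- the limits of the orbit segments which start near `x` in `A` -/
def Lim (g : X ≃ₜ X) (A : Set X) (x : X) : Set X :=
  {w | ∀ ε > 0, ∀ N : ℕ, ∃ n ≥ N, ∃ z ∈ A, dist z x < ε ∧ dist (g^[n] z) w < ε}

theorem lim_att [CompactSpace X] {g : X ≃ₜ X} {c : ℝ} (h : LP g c) {A : Set X} (hA : IsAtt g A)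
    {x : X} (hx : x ∈ A) : IsAtt g (Lim g A x) := by
  have hc0 := h.c_pos
  refine ⟨?_, ?_, ?_, ?_⟩
  · apply isClosed_of_closure_subset
    intro w hw ε hε N
    obtain ⟨w', hw', hd⟩ := Metric.mem_closure_iff.mp hw (ε / 2) (half_pos hε)
    obtain ⟨n, hn, z, hz, h1, h2⟩ := hw' (ε / 2) (half_pos hε) N
    refine ⟨n, hn, z, hz, by linarith, ?_⟩
    have := dist_triangle (g^[n] z) w' w
    rw [dist_comm w' w] at this
    linarith
  · obtain ⟨y, hy⟩ := exists_clusterPt_of_compactSpace (map (fun n : ℕ => g^[n] x) atTop)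
    have hy' : MapClusterPt y atTop (fun n : ℕ => g^[n] x) := hy
    refine ⟨y, fun ε hε N => ?_⟩
    have h1 := (mapClusterPt_iff_frequently.mp hy') (Metric.ball y ε) (Metric.ball_mem_nhds y hε)
    obtain ⟨n, hn, hn'⟩ := frequently_atTop.mp h1 N
    exact ⟨n, hn, x, hx, by rw [dist_self]; exact hε, hn'⟩
  · intro w
    constructor
    · intro hw ε hε N
      obtain ⟨δ, hδ, h1⟩ := Metric.continuousAt_iff.mp (g.symm.continuous.continuousAt (x := g w))
        ε hε
      obtain ⟨n, hn, z, hz, h2, h3⟩ := hw (min δ ε) (lt_min hδ hε) (N + 1)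
      refine ⟨n - 1, by omega, z, hz, h2.trans_le (min_le_right _ _), ?_⟩
      have e1 : g^[n] z = g (g^[n - 1] z) := by
        rw [← Function.iterate_succ_apply' g (n - 1)]
        congr 1; omega
      rw [e1] at h3
      have h4 := h1 (h3.trans_le (min_le_left _ _))
      rwa [g.symm_apply_apply, g.symm_apply_apply] at h4
    · intro hw ε hε N
      obtain ⟨δ, hδ, h1⟩ := Metric.continuousAt_iff.mp (g.continuous.continuousAt (x := w)) ε hε
      obtain ⟨n, hn, z, hz, h2, h3⟩ := hw (min δ ε) (lt_min hδ hε) N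
      refine ⟨n + 1, by omega, z, hz, h2.trans_le (min_le_right _ _), ?_⟩
      rw [Function.iterate_succ_apply']
      exact h1 (h3.trans_le (min_le_left _ _))
  · intro w hw w' hww' ε hε N
    have hη : 0 < min (ε / 2) (c / 2) := lt_min (half_pos hε) (half_pos hc0)
    obtain ⟨δ, hδ, hhol⟩ := hol h hη
    obtain ⟨j, hj⟩ := hww'.eventually_lt (half_pos hc0)
    obtain ⟨δ', hδ', h1⟩ := Metric.continuousAt_iff.mp
      ((g.symm.continuous.iterate j).continuousAt (x := w)) δ hδ
    obtain ⟨m, hm⟩ := pw (c := c) (half_pos hε)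
    obtain ⟨n, hn, z, hz, h2, h3⟩ := hw (min δ' (ε / 2)) (lt_min hδ' (half_pos hε)) (N + j + m)
    have h4 : dist (g.symm^[j] w) (g^[n - j] z) < δ := by
      have h5 := h1 (h3.trans_le (min_le_left _ _))
      have e1 : g.symm^[j] (g^[n] z) = g^[n - j] z := bk g (by omega) z
      rw [e1, dist_comm] at h5
      exact h5
    obtain ⟨q, hq1, hq2⟩ := hhol (c / 2) (by linarith) _ _ (g.symm^[j] w') h4 (fun k => by
      rw [← Function.iterate_add_apply, ← Function.iterate_add_apply]
      exact (hj (k + j) (by omega)).le)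
    have hq2' : SR g.symm c (g^[n - j] z) q := hq2.mono (by
      have := min_le_right (ε / 2) (c / 2)
      linarith)
    have hqA : q ∈ A := hA.sat _ ((inv_iter hA.inv (n - j) z).mpr hz) q (WS.of_SR (h.cU _ _ hq2'))
    refine ⟨n, by omega, g.symm^[n - j] q, (inv_iter (inv_symm hA.inv) (n - j) q).mpr hqA, ?_, ?_⟩
    · have h5 := h.cU _ _ hq2' (n - j)
      rw [iterL] at h5
      have h6 := pw_anti hc0 (show m ≤ n - j by omega)
      have h7 := h2.trans_le (min_le_right _ _)
      have := dist_triangle_left (g.symm^[n - j] q) x z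
      linarith
    · have e1 : g^[n] (g.symm^[n - j] q) = g^[j] q := by
        rw [fw' g (by omega)]
        congr 1; omega
      rw [e1]
      have h5 := hq1 j
      rw [iterR, dist_comm] at h5
      have := min_le_left (ε / 2) (c / 2)
      linarith

/-- Recurrence in minimal attractors. -/
theorem min_rec [CompactSpace X] {g : X ≃ₜ X} {c : ℝ} (h : LP g c) {A : Set X} (hA : MinAtt g A)
    {x : X} (hx : x ∈ A) : x ∈ Lim g A x := by
  refine hA.2 _ (lim_att h hA.1 hx) (fun w hw => ?_) hx
  rw [← hA.1.closed.closure_eq, Metric.mem_closure_iff]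
  intro ε hε
  obtain ⟨n, -, z, hz, -, h3⟩ := hw ε hε 0
  exact ⟨_, (inv_iter hA.1.inv n z).mpr hz, by rw [dist_comm]; exact h3⟩

/-- Periodic points are dense in minimal attractors. -/
theorem per_dense [CompactSpace X] {E : Type*} [NormedAddCommGroup E] [NormedSpace ℝ E]
    (S : HypSys X E) {A : Set X} (hA : MinAtt S.g A) {x : X} (hx : x ∈ A) {ρ : ℝ} (hρ : 0 < ρ) :
    ∃ p ∈ A, dist p x < ρ ∧ ∃ q : ℕ, 1 ≤ q ∧ S.g^[q] p = p := by
  obtain ⟨c, h⟩ := exists_LP S
  have hc0 := h.c_pos
  obtain ⟨δn, hδn, hnear⟩ := h.near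
  obtain ⟨ε₀, hε₀, hsh⟩ := S.shadowing
  have hK := S.one_le_K
  set β := min (min (ρ / 2) (c / 4)) (δn / 2) with hβ
  have hβ0 : 0 < β := lt_min (lt_min (half_pos hρ) (by linarith)) (half_pos hδn)
  have hβ1 : β ≤ ρ / 2 := (min_le_left _ _).trans (min_le_left _ _)
  have hβ2 : β ≤ c / 4 := (min_le_left _ _).trans (min_le_right _ _)
  have hβ3 : β ≤ δn / 2 := min_le_right _ _
  set ε := min ε₀ (β / (8 * S.K)) with hε
  have hε0 : 0 < ε := lt_min hε₀ (by positivity)
  have hε1 : 8 * S.K * ε ≤ β := by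
    have : ε ≤ β / (8 * S.K) := min_le_right _ _
    rw [le_div_iff₀ (by positivity)] at this
    linarith
  obtain ⟨n, hn, z, hz, h1, h2⟩ := min_rec h hA hx (min (ε / 2) (ρ / 4))
    (lt_min (half_pos hε0) (by linarith)) 1
  have hnz : (n : ℤ) ≠ 0 := by omega
  have hnpos : (0 : ℤ) < n := by omega
  let y : ℤ → X := fun i => S.g^[(i % n).toNat] z
  have hyA : ∀ i, y i ∈ A := fun i => (inv_iter hA.1.inv _ z).mpr hz
  have hps : ∀ i, dist (S.g (y i)) (y (i + 1)) ≤ ε := by
    intro i
    have hm0 := Int.emod_nonneg i hnz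
    have hm1 := Int.emod_lt_of_pos i hnpos
    by_cases hcase : i % n + 1 = n
    · have e1 : (i + 1) % n = 0 := by
        rw [Int.add_emod]
        rcases eq_or_lt_of_le (show (1:ℤ) ≤ n by omega) with h' | h'
        · rw [← h']; simp
        · rw [Int.emod_eq_of_lt (by norm_num) h', hcase, Int.emod_self]
      have e2 : S.g (y i) = S.g^[n] z := by
        show S.g (S.g^[(i % n).toNat] z) = _
        rw [← Function.iterate_succ_apply' S.g]
        congr 1; omega
      have e3 : y (i + 1) = z := by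
        show S.g^[((i + 1) % n).toNat] z = z
        rw [e1]; rfl
      rw [e2, e3]
      have h3 := h2.trans_le (min_le_left _ _)
      have h4 := h1.trans_le (min_le_left _ _)
      have := dist_triangle_right (S.g^[n] z) z x
      linarith
    · have e1 : (i + 1) % n = i % n + 1 := by
        rw [Int.add_emod]
        rcases eq_or_lt_of_le (show (1:ℤ) ≤ n by omega) with h' | h'
        · exfalso; omega
        · rw [Int.emod_eq_of_lt (by norm_num : (0:ℤ) ≤ 1) h', Int.emod_eq_of_lt (by omega)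
            (by omega)]
      have e2 : S.g (y i) = y (i + 1) := by
        show S.g (S.g^[(i % n).toNat] z) = S.g^[((i + 1) % n).toNat] z
        rw [← Function.iterate_succ_apply' S.g]
        congr 1; omega
      rw [e2, dist_self]; exact hε0.le
  obtain ⟨w, hw1, hw2⟩ := hsh ε (min_le_left _ _) y hps
  have hw2' : ∀ i, dist (w i) (y i) ≤ β := fun i => (hw2 i).trans hε1
  have hyper : ∀ i : ℤ, y (i + n) = y i := fun i => by
    show S.g^[((i + n) % n).toNat] z = S.g^[(i % n).toNat] z
    rw [Int.add_emod_right]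
  have hnat := S.orbit_nat w hw1
  have hneg := S.orbit_neg w hw1
  set p := w 0 with hp
  have hgn : w n = S.g^[n] p := hnat n
  have hclose : ∀ i : ℤ, dist (w (i + n)) (w i) ≤ c := fun i => by
    have h3 := hw2' (i + n)
    have h4 := hw2' i
    rw [hyper] at h3
    rw [dist_comm] at h4
    have := dist_triangle (w (i + n)) (y i) (w i)
    linarith
  have hfix : S.g^[n] p = p := by
    apply Pool.Agent.Y330.G.expans h
    · intro k
      have e1 : S.g^[k] (S.g^[n] p) = w (k + n) := by
        rw [← Function.iterate_add_apply, ← hnat]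
        push_cast; rfl
      rw [e1, ← hnat k]
      exact hclose k
    · intro k
      have e1 : S.g.symm^[k] (S.g^[n] p) = w (-(k:ℤ) + n) := by
        rcases le_total k n with hk | hk
        · rw [bk S.g hk, ← hnat]
          congr 1; omega
        · rw [bk' S.g hk, ← hneg]
          congr 1; omega
      rw [e1, ← hneg k]
      exact hclose _
  refine ⟨p, ?_, ?_, n, hn, hfix⟩
  · rw [← hA.1.closed.closure_eq, Metric.mem_closure_iff]
    intro ε' hε'
    obtain ⟨k, hk⟩ := pw (c := c) (half_pos hε')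
    have h3 := hw2' (-(k:ℤ))
    rw [hneg k] at h3
    obtain ⟨a, ha, hsr⟩ := hnear A hA.1 _ (hyA (-(k:ℤ))) _ (lt_of_le_of_lt h3 (by linarith))
    refine ⟨S.g^[k] a, (inv_iter hA.1.inv k a).mpr ha, ?_⟩
    have h4 := h.cS _ _ hsr k
    rw [iterR] at h4
    linarith
  · have h3 := hw2' 0
    have e1 : y 0 = z := by
      show S.g^[((0:ℤ) % n).toNat] z = z
      rw [Int.zero_emod]; rfl
    rw [e1] at h3
    have h4 := h1.trans_le (min_le_right _ _)
    have := dist_triangle p z x
    linarith

end Pool.Agent.Y330.F
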