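import Pool.Agent.H66.L.S8.Y330.F.A1

set_option autoImplicit false
set_option linter.unusedSectionVars false

open Filter Topology Set Metric
open scoped InnerProductSpace

namespace Pool.Agent.Y330.F

open Pool.Agent.H789R2.AN Pool.Agent.Y330.G

variable {X : Type*} [MetricSpace X] {E : Type*} [NormedAddCommGroup E] [InnerProductSpace ℝ E]

/-- A one-dimensional foliation contracted by `c` and by `c'`. -/
structure LF (c c' : X ≃ₜ X) (e : X → E) (F : X → Submodule ℝ E) (D : X → E →ₗ[ℝ] E)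
    (ε₀ C Λ : ℝ) : Prop where
  isom : ∀ x y, dist x y = ‖e x - e y‖
  comm : ∀ x, c' (c x) = c (c' x)
  pos : 0 < ε₀
  C_pos : 0 < C
  L_pos : 1 ≤ Λ
  ctr : Ctr c ε₀
  ctr' : Ctr c' ε₀
  jt : ∀ x y, R2 c c' ε₀ x y →
      ∀ n m : ℕ, R2 c c' ((1 / 2) ^ (n + m) * dist x y) (c^[n] (c'^[m] x)) (c^[n] (c'^[m] y))
  line : ∀ x, ∃ u ∈ F x, u ≠ 0 ∧ ∀ v ∈ F x, ∃ r : ℝ, v = r • u
  clF : IsClosed {p : X × E | p.2 ∈ F p.1}
  map : ∀ x, ∀ v ∈ F x, D x v ∈ F (c x)
  contr : ∀ x, ∀ v ∈ F x, ‖D x v‖ ≤ 1 / 2 * ‖v‖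
  lower : ∀ x, ∀ v ∈ F x, ‖v‖ ≤ Λ * ‖D x v‖
  quad : ∀ x y, R2 c c' ε₀ x y → ∃ v ∈ F x, ‖e y - e x - v‖ ≤ C * dist x y ^ 2 ∧
    ‖e (c y) - e (c x) - D x v‖ ≤ C * dist x y ^ 2
  Dcont : ContinuousOn (fun p : X × E => D p.1 p.2) {p : X × E | p.2 ∈ F p.1}
  dir : ∀ η > 0, ∃ r > 0, ∀ x, ∀ v ∈ F x, ‖v‖ ≤ r →
    ∃ y, R2 c c' ε₀ x y ∧ ‖e y - e x - v‖ ≤ η * ‖v‖

/-- transported vectors -/
noncomputable def vec (c : X → X) (D : X → E →ₗ[ℝ] E) : ℕ → X → E → E
  | 0, _, u => u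
  | n + 1, x, u => D (c^[n] x) (vec c D n x u)

theorem vec_zero (c : X → X) (D : X → E →ₗ[ℝ] E) (x : X) (u : E) : vec c D 0 x u = u := rfl

theorem vec_succ (c : X → X) (D : X → E →ₗ[ℝ] E) (n : ℕ) (x : X) (u : E) :
    vec c D (n + 1) x u = D (c^[n] x) (vec c D n x u) := rfl

theorem vec_add (c : X → X) (D : X → E →ₗ[ℝ] E) (n m : ℕ) (x : X) (u : E) :
    vec c D (n + m) x u = vec c D n (c^[m] x) (vec c D m x u) := by
  induction n with
  | zero => simp [vec_zero]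
  | succ n ih =>
    rw [show n + 1 + m = (n + m) + 1 by ring, vec_succ, vec_succ, ih,
      ← Function.iterate_add_apply]

theorem vec_smul (c : X → X) (D : X → E →ₗ[ℝ] E) (n : ℕ) (x : X) (r : ℝ) (u : E) :
    vec c D n x (r • u) = r • vec c D n x u := by
  induction n with
  | zero => rfl
  | succ n ih => rw [vec_succ, vec_succ, ih, map_smul]

/-- component of the chord at time zero -/
noncomputable def t0 (e : X → E) (x : X) (u : E) (y : X) : ℝ := ⟪e y - e x, u⟫_ℝ / ‖u‖ ^ 2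

/-- component of the chord at time `n` -/
noncomputable def Tn (c : X → X) (D : X → E →ₗ[ℝ] E) (e : X → E) (n : ℕ) (x : X) (u : E)
    (y : X) : ℝ := t0 e (c^[n] x) (vec c D n x u) (c^[n] y)

/-- the affine coordinate -/
noncomputable def TT (c : X → X) (D : X → E →ₗ[ℝ] E) (e : X → E) (x : X) (u : E) (y : X) : ℝ :=
  limUnder atTop fun n => Tn c D e n x u y

theorem Tn_shift (c : X → X) (D : X → E →ₗ[ℝ] E) (e : X → E) (n m : ℕ) (x : X) (u : E) (y : X) :
    Tn c D e n (c^[m] x) (vec c D m x u) (c^[m] y) = Tn c D e (n + m) x u y := by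
  unfold Tn
  rw [vec_add, Function.iterate_add_apply, Function.iterate_add_apply]

theorem t0_smul (e : X → E) (x : X) (r : ℝ) (u : E) (y : X) :
    t0 e x (r • u) y = t0 e x u y / r := by
  unfold t0
  by_cases hr : r = 0
  · subst hr; simp
  · by_cases hu : u = 0
    · subst hu; simp
    · rw [inner_smul_right, norm_smul, mul_pow, Real.norm_eq_abs, sq_abs]
      field_simp

theorem t0_err (e : X → E) (x : X) (u : E) (hu : u ≠ 0) (y : X) (r : ℝ) :
    |t0 e x u y - r| * ‖u‖ ≤ ‖e y - e x - r • u‖ := by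
  have hn : 0 < ‖u‖ := norm_pos_iff.mpr hu
  have h1 : t0 e x u y - r = ⟪e y - e x - r • u, u⟫_ℝ / ‖u‖ ^ 2 := by
    have h0 : ⟪e y - e x - r • u, u⟫_ℝ = ⟪e y - e x, u⟫_ℝ - r * ‖u‖ ^ 2 := by
      rw [inner_sub_left (e y - e x) (r • u) u, real_inner_smul_left, real_inner_self_eq_norm_sq]
    unfold t0
    rw [h0]
    field_simp
  rw [h1, abs_div, abs_of_pos (by positivity : 0 < ‖u‖ ^ 2)]
  have h2 := abs_real_inner_le_norm (e y - e x - r • u) u
  rw [div_mul_eq_mul_div, div_le_iff₀ (by positivity)]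
  nlinarith

namespace LF

variable {c c' : X ≃ₜ X} {e : X → E} {F : X → Submodule ℝ E} {D : X → E →ₗ[ℝ] E} {ε₀ C Λ : ℝ}

theorem vec_mem (L : LF c c' e F D ε₀ C Λ) (n : ℕ) (x : X) {u : E} (hu : u ∈ F x) :
    vec c D n x u ∈ F (c^[n] x) := by
  induction n with
  | zero => exact hu
  | succ n ih => rw [vec_succ, Function.iterate_succ_apply']; exact L.map _ _ ih

theorem ne_zero (L : LF c c' e F D ε₀ C Λ) (x : X) {u : E} (hu : u ∈ F x) (h : u ≠ 0) :
    D x u ≠ 0 := by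
  intro h0
  have := L.lower x u hu
  rw [h0, norm_zero, mul_zero] at this
  exact h (norm_le_zero_iff.mp this)

theorem vec_ne (L : LF c c' e F D ε₀ C Λ) (n : ℕ) (x : X) {u : E} (hu : u ∈ F x) (h : u ≠ 0) :
    vec c D n x u ≠ 0 := by
  induction n with
  | zero => exact h
  | succ n ih => rw [vec_succ]; exact L.ne_zero _ (L.vec_mem n x hu) ih

theorem vec_le (L : LF c c' e F D ε₀ C Λ) (n : ℕ) (x : X) {u : E} (hu : u ∈ F x) :
    ‖vec c D n x u‖ ≤ (1 / 2) ^ n * ‖u‖ := by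
  induction n with
  | zero => simp [vec_zero]
  | succ n ih =>
    rw [vec_succ, pow_succ]
    have := L.contr _ _ (L.vec_mem n x hu)
    linarith

theorem vec_lower (L : LF c c' e F D ε₀ C Λ) (n : ℕ) (x : X) {u : E} (hu : u ∈ F x) :
    ‖u‖ ≤ Λ ^ n * ‖vec c D n x u‖ := by
  have hL := L.L_pos
  induction n with
  | zero => simp [vec_zero]
  | succ n ih =>
    rw [vec_succ, pow_succ]
    have h1 := L.lower _ _ (L.vec_mem n x hu)
    have h2 : Λ ^ n * ‖vec c D n x u‖ ≤ Λ ^ n * (Λ * ‖D (c^[n] x) (vec c D n x u)‖) :=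
      mul_le_mul_of_nonneg_left h1 (by positivity)
    linarith

/-- chord bound -/
theorem t0_le (L : LF c c' e F D ε₀ C Λ) (x y : X) {u : E} (h : u ≠ 0) :
    |t0 e x u y| * ‖u‖ ≤ dist x y := by
  have := t0_err e x u h y 0
  rw [zero_smul, sub_zero, sub_zero] at this
  rw [L.isom, norm_sub_rev]
  exact this

/-- basic one-step estimates -/
theorem step (L : LF c c' e F D ε₀ C Λ) {x y : X} (hxy : R2 c c' ε₀ x y)
    (hd : 4 * C * dist x y ≤ 1) {u : E} (hu : u ∈ F x) (h : u ≠ 0) :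
    dist x y ≤ 2 * (|t0 e x u y| * ‖u‖) ∧
    |t0 e (c x) (D x u) (c y) - t0 e x u y| ≤ 4 * C * Λ * (|t0 e x u y| * dist x y) ∧
    ‖e y - e x - t0 e x u y • u‖ ≤ 2 * C * dist x y ^ 2 := by
  obtain ⟨w, hw, hw0, hspan⟩ := L.line x
  obtain ⟨v, hv, hq1, hq2⟩ := L.quad x y hxy
  -- `v` is a multiple of `u`
  obtain ⟨r₁, hr₁⟩ := hspan u hu
  have hr₁0 : r₁ ≠ 0 := fun h0 => h (by rw [hr₁, h0, zero_smul])
  obtain ⟨r₂, hr₂⟩ := hspan v hv
  set r := r₂ / r₁ with hr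
  have hvu : v = r • u := by
    rw [hr₂, hr₁, smul_smul, hr]
    congr 1
    field_simp
  have hn : 0 < ‖u‖ := norm_pos_iff.mpr h
  have hL := L.L_pos
  have hC := L.C_pos
  set d := dist x y with hdd
  have hd0 : 0 ≤ d := dist_nonneg
  rw [hvu] at hq1 hq2
  have h1 := (t0_err e x u h y r).trans hq1
  set t := t0 e x u y with ht
  have h2 : ‖e y - e x‖ = d := by rw [hdd, L.isom, norm_sub_rev]
  have h3 : ‖e y - e x - t • u‖ ≤ 2 * C * d ^ 2 := by
    have e1 : e y - e x - t • u = (e y - e x - r • u) - (t - r) • u := by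
      rw [sub_smul]; abel
    rw [e1]
    have := norm_sub_le (e y - e x - r • u) ((t - r) • u)
    rw [norm_smul, Real.norm_eq_abs] at this
    linarith
  have h4 : d ≤ |t| * ‖u‖ + 2 * C * d ^ 2 := by
    have e1 : e y - e x = t • u + (e y - e x - t • u) := by abel
    have := norm_add_le (t • u) (e y - e x - t • u)
    rw [← e1, norm_smul, Real.norm_eq_abs, h2] at this
    linarith
  have h5 : 2 * C * d ^ 2 ≤ 1 / 2 * d := by nlinarith
  have h6 : d ≤ 2 * (|t| * ‖u‖) := by linarith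
  refine ⟨h6, ?_, h3⟩
  rw [map_smul] at hq2
  have hDu : D x u ≠ 0 := L.ne_zero x hu h
  have hDn : 0 < ‖D x u‖ := norm_pos_iff.mpr hDu
  have h7 := (t0_err e (c x) (D x u) hDu (c y) r).trans hq2
  set t' := t0 e (c x) (D x u) (c y) with ht'
  have hlow := L.lower x u hu
  have h8 : |t' - r| * ‖u‖ ≤ Λ * (C * d ^ 2) := by
    calc |t' - r| * ‖u‖ ≤ |t' - r| * (Λ * ‖D x u‖) := mul_le_mul_of_nonneg_left hlow (abs_nonneg _)
      _ = Λ * (|t' - r| * ‖D x u‖) := by ring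
      _ ≤ _ := mul_le_mul_of_nonneg_left h7 (by linarith)
  have h9 : |t' - t| * ‖u‖ ≤ 2 * Λ * (C * d ^ 2) := by
    have e1 : t' - t = (t' - r) - (t - r) := by ring
    have h10 : |t' - t| ≤ |t' - r| + |t - r| := by rw [e1]; exact abs_sub _ _
    have h11 : C * d ^ 2 ≤ Λ * (C * d ^ 2) := by
      have : 0 ≤ C * d ^ 2 := by positivity
      nlinarith
    nlinarith
  have h12 : 2 * Λ * (C * d ^ 2) ≤ 4 * C * Λ * (|t| * d) * ‖u‖ := by
    have h13 : d * d ≤ 2 * (|t| * ‖u‖) * d := mul_le_mul_of_nonneg_right h6 hd0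
    have : 2 * Λ * (C * d ^ 2) = 2 * Λ * C * (d * d) := by ring
    rw [this]
    calc 2 * Λ * C * (d * d) ≤ 2 * Λ * C * (2 * (|t| * ‖u‖) * d) :=
          mul_le_mul_of_nonneg_left h13 (by positivity)
      _ = _ := by ring
  exact le_of_mul_le_mul_right (h9.trans h12) hn

/-- the local scale -/
noncomputable def sc (ε₀ C Λ : ℝ) : ℝ := min ε₀ (1 / (64 * C * Λ))

theorem sc_pos (L : LF c c' e F D ε₀ C Λ) : 0 < sc ε₀ C Λ := by
  have hL := L.L_pos
  have hC := L.C_pos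
  have hp := L.pos
  exact lt_min hp (by positivity)

theorem sc_le (_L : LF c c' e F D ε₀ C Λ) : sc ε₀ C Λ ≤ ε₀ := min_le_left _ _

theorem sc_le' (L : LF c c' e F D ε₀ C Λ) : 64 * C * Λ * sc ε₀ C Λ ≤ 1 := by
  have hL := L.L_pos
  have hC := L.C_pos
  have : sc ε₀ C Λ ≤ 1 / (64 * C * Λ) := min_le_right _ _
  rw [le_div_iff₀ (by positivity)] at this
  linarith

theorem sc_le'' (L : LF c c' e F D ε₀ C Λ) {d : ℝ} (hd0 : 0 ≤ d) (hd : d ≤ sc ε₀ C Λ) :
    4 * C * d ≤ 1 := by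
  have hL := L.L_pos
  have hC := L.C_pos
  have h1 := L.sc_le'
  have h2 : 64 * C * Λ * d ≤ 64 * C * Λ * sc ε₀ C Λ :=
    mul_le_mul_of_nonneg_left hd (by positivity)
  have h3 : 4 * C * d ≤ 64 * C * Λ * d := by
    have : 0 ≤ C * d := by positivity
    nlinarith
  linarith

/-- bounds along the orbit of a local pair -/
theorem orbit (L : LF c c' e F D ε₀ C Λ) {x y : X} (hxy : R2 c c' (sc ε₀ C Λ) x y)
    {u : E} (hu : u ∈ F x) (h : u ≠ 0) (n : ℕ) :
    |Tn c D e n x u y - t0 e x u y| ≤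
      16 * C * Λ * (dist x y * |t0 e x u y|) * (1 - (1 / 2) ^ n) ∧
    |Tn c D e (n + 1) x u y - Tn c D e n x u y| ≤
      8 * C * Λ * (dist x y * |t0 e x u y|) * (1 / 2) ^ n := by
  have hL := L.L_pos
  have hC := L.C_pos
  set d := dist x y with hd
  have hd0 : 0 ≤ d := dist_nonneg
  have hdsc : d ≤ sc ε₀ C Λ := hxy.1 0
  have h64 : 64 * C * Λ * d ≤ 1 := by
    have := L.sc_le'
    have h2 : 64 * C * Λ * d ≤ 64 * C * Λ * sc ε₀ C Λ :=
      mul_le_mul_of_nonneg_left hdsc (by positivity)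
    linarith
  set t := t0 e x u y with ht
  have hR : ∀ k : ℕ, R2 c c' ε₀ (c^[k] x) (c^[k] y) ∧ dist (c^[k] x) (c^[k] y) ≤ (1 / 2) ^ k * d := by
    intro k
    have h1 := L.jt x y (hxy.mono L.sc_le) k 0
    simp only [Function.iterate_zero, id_eq, add_zero] at h1
    refine ⟨h1.mono ?_, h1.1 0⟩
    have h2 : (1 / 2 : ℝ) ^ k * d ≤ 1 * d := mul_le_mul_of_nonneg_right (half_pow_le k) hd0
    have := L.sc_le
    linarith
  have hstep : ∀ k : ℕ, |Tn c D e k x u y| ≤ 2 * |t| →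
      |Tn c D e (k + 1) x u y - Tn c D e k x u y| ≤ 8 * C * Λ * (d * |t|) * (1 / 2) ^ k := by
    intro k hk
    have hdk : dist (c^[k] x) (c^[k] y) ≤ d := by
      have h2 : (1 / 2 : ℝ) ^ k * d ≤ 1 * d := mul_le_mul_of_nonneg_right (half_pow_le k) hd0
      linarith [(hR k).2]
    have h1 := (L.step (hR k).1 (L.sc_le'' dist_nonneg (hdk.trans hdsc)) (L.vec_mem k x hu)
      (L.vec_ne k x hu h)).2.1
    have e1 : Tn c D e (k + 1) x u y = t0 e (c (c^[k] x)) (D (c^[k] x) (vec c D k x u))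
        (c (c^[k] y)) := by
      unfold Tn
      rw [vec_succ, Function.iterate_succ_apply', Function.iterate_succ_apply']
    rw [e1]
    refine h1.trans ?_
    have h2 : |t0 e (c^[k] x) (vec c D k x u) (c^[k] y)| * dist (c^[k] x) (c^[k] y) ≤
        (2 * |t|) * ((1 / 2) ^ k * d) := mul_le_mul hk (hR k).2 dist_nonneg (by positivity)
    calc 4 * C * Λ * (|t0 e (c^[k] x) (vec c D k x u) (c^[k] y)| * dist (c^[k] x) (c^[k] y))
        ≤ 4 * C * Λ * ((2 * |t|) * ((1 / 2) ^ k * d)) := mul_le_mul_of_nonneg_left h2 (by positivity)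
      _ = _ := by ring
  have hmain : ∀ k : ℕ, |Tn c D e k x u y - t| ≤ 16 * C * Λ * (d * |t|) * (1 - (1 / 2) ^ k) ∧
      |Tn c D e k x u y| ≤ 2 * |t| := by
    have hsmall : ∀ k : ℕ, 16 * C * Λ * (d * |t|) * (1 - (1 / 2) ^ k) ≤ |t| := fun k => by
      have h2 : 0 ≤ (1 / 2 : ℝ) ^ k := by positivity
      have h3 : 0 ≤ 16 * C * Λ * (d * |t|) := by positivity
      have h4 : 16 * C * Λ * (d * |t|) = (16 * C * Λ * d) * |t| := by ring
      have h5 : 16 * C * Λ * (d * |t|) ≤ 1 * |t| := by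
        rw [h4]
        apply mul_le_mul_of_nonneg_right _ (abs_nonneg t)
        have : 0 ≤ C * Λ * d := by positivity
        linarith
      nlinarith
    intro k
    induction k with
    | zero =>
      have e1 : Tn c D e 0 x u y = t := rfl
      rw [e1]
      simp only [sub_self, abs_zero, pow_zero, mul_zero, le_refl, true_and]
      linarith [abs_nonneg t]
    | succ k ih =>
      have h1 := hstep k ih.2
      have h2 : |Tn c D e (k + 1) x u y - t| ≤
          16 * C * Λ * (d * |t|) * (1 - (1 / 2) ^ (k + 1)) := by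
        have h3 := abs_sub_le (Tn c D e (k + 1) x u y) (Tn c D e k x u y) t
        have h4 : 16 * C * Λ * (d * |t|) * (1 - (1 / 2) ^ (k + 1)) =
          8 * C * Λ * (d * |t|) * (1 / 2) ^ k + 16 * C * Λ * (d * |t|) * (1 - (1 / 2) ^ k) := by
          rw [pow_succ]; ring
        rw [h4]
        linarith [ih.1]
      refine ⟨h2, ?_⟩
      have h3 := abs_sub_abs_le_abs_sub (Tn c D e (k + 1) x u y) t
      linarith [hsmall (k + 1)]
  exact ⟨(hmain n).1, hstep n (hmain n).2⟩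

/-- convergence for local pairs -/
theorem conv (L : LF c c' e F D ε₀ C Λ) {x y : X} (hxy : R2 c c' (sc ε₀ C Λ) x y)
    {u : E} (hu : u ∈ F x) (h : u ≠ 0) :
    Tendsto (fun n => Tn c D e n x u y) atTop (𝓝 (TT c D e x u y)) ∧
    ∀ n, |TT c D e x u y - Tn c D e n x u y| ≤
      16 * C * Λ * (dist x y * |t0 e x u y|) * (1 / 2) ^ n := by
  have hg : ∀ n, dist (Tn c D e n x u y) (Tn c D e (n + 1) x u y) ≤
      16 * C * Λ * (dist x y * |t0 e x u y|) / 2 / 2 ^ n := fun n => by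
    rw [dist_comm, Real.dist_eq]
    refine ((L.orbit hxy hu h n).2).trans (le_of_eq ?_)
    rw [one_div, inv_pow]
    ring
  have hcs := cauchySeq_of_le_geometric_two hg
  obtain ⟨T₀, hT₀⟩ := cauchySeq_tendsto_of_complete hcs
  have hTT : TT c D e x u y = T₀ := hT₀.limUnder_eq
  rw [hTT]
  refine ⟨hT₀, fun n => ?_⟩
  have h1 := dist_le_of_le_geometric_two_of_tendsto hg hT₀ n
  rw [← Real.dist_eq, dist_comm]
  refine h1.trans (le_of_eq ?_)
  rw [one_div, inv_pow]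
  ring

/-- comparison of the affine coordinate and the distance for local pairs -/
theorem bounds (L : LF c c' e F D ε₀ C Λ) {x y : X} (hxy : R2 c c' (sc ε₀ C Λ) x y)
    {u : E} (hu : u ∈ F x) (h : u ≠ 0) :
    |TT c D e x u y| * ‖u‖ ≤ 2 * dist x y ∧ dist x y ≤ 4 * (|TT c D e x u y| * ‖u‖) ∧
    |TT c D e x u y - t0 e x u y| ≤ 16 * C * Λ * (dist x y * |t0 e x u y|) := by
  have hL := L.L_pos
  have hC := L.C_pos
  have h1 := (L.conv hxy hu h).2 0
  have e1 : Tn c D e 0 x u y = t0 e x u y := rfl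
  rw [e1, pow_zero, mul_one] at h1
  have hdsc : dist x y ≤ sc ε₀ C Λ := hxy.1 0
  have h64 : 64 * C * Λ * dist x y ≤ 1 := by
    have := L.sc_le'
    have h2 : 64 * C * Λ * dist x y ≤ 64 * C * Λ * sc ε₀ C Λ :=
      mul_le_mul_of_nonneg_left hdsc (by positivity)
    linarith
  set t := t0 e x u y
  set d := dist x y
  have hd0 : 0 ≤ d := dist_nonneg
  have h2 : 16 * C * Λ * (d * |t|) ≤ 1 / 4 * |t| := by
    have : 16 * C * Λ * (d * |t|) = (16 * C * Λ * d) * |t| := by ring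
    rw [this]
    exact mul_le_mul_of_nonneg_right (by linarith) (abs_nonneg t)
  have h3 := abs_sub_abs_le_abs_sub (TT c D e x u y) t
  have h4 : |t| - |TT c D e x u y| ≤ |TT c D e x u y - t| := by
    have := abs_sub_abs_le_abs_sub t (TT c D e x u y)
    rwa [abs_sub_comm t] at this
  have h5 := L.t0_le x y h
  have h6 := (L.step (hxy.mono L.sc_le) (L.sc_le'' hd0 hdsc) hu h).1
  have hn : 0 ≤ ‖u‖ := norm_nonneg u
  refine ⟨?_, ?_, h1⟩
  · have h7 : |TT c D e x u y| ≤ 2 * |t| := by linarith [abs_nonneg t]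
    have h8 : |TT c D e x u y| * ‖u‖ ≤ 2 * |t| * ‖u‖ := mul_le_mul_of_nonneg_right h7 hn
    have h9 : |t| * ‖u‖ ≤ d := h5
    linarith
  · have h7 : |t| ≤ 2 * |TT c D e x u y| := by linarith [abs_nonneg (TT c D e x u y)]
    have h8 : |t| * ‖u‖ ≤ 2 * |TT c D e x u y| * ‖u‖ := mul_le_mul_of_nonneg_right h7 hn
    have h9 : d ≤ 2 * (|t| * ‖u‖) := h6
    linarith

end LF

end Pool.Agent.Y330.F
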