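import Pool.Agent.H66.L.S8.Y330.F.B2

set_option autoImplicit false
set_option linter.unusedSectionVars false

open Filter Topology Set Metric
open scoped InnerProductSpace

namespace Pool.Agent.Y330.F

open Pool.Agent.H789R2.AN Pool.Agent.Y330.G

variable {X : Type*} [MetricSpace X] {E : Type*} [NormedAddCommGroup E] [InnerProductSpace ℝ E]

/-- the leaf relation -/
def LW (c c' : X ≃ₜ X) (s : ℝ) (x y : X) : Prop := ∃ n : ℕ, R2 c c' s (c^[n] x) (c^[n] y)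

theorem closed_R2 (g h : X ≃ₜ X) (ε : ℝ) {κ : Type*} {l : Filter κ} [l.NeBot] {x y : κ → X}
    {x₀ y₀ : X} (hx : Tendsto x l (𝓝 x₀)) (hy : Tendsto y l (𝓝 y₀))
    (h1 : ∀ᶠ k in l, R2 g h ε (x k) (y k)) : R2 g h ε x₀ y₀ := by
  have key : ∀ (f : X ≃ₜ X), (∀ᶠ k in l, SR f ε (x k) (y k)) → SR f ε x₀ y₀ := by
    intro f hf n
    have h2 : Tendsto (fun k => dist (f^[n] (x k)) (f^[n] (y k))) l
        (𝓝 (dist (f^[n] x₀) (f^[n] y₀))) :=
      (((f.continuous.iterate n).tendsto x₀).comp hx).dist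
        (((f.continuous.iterate n).tendsto y₀).comp hy)
    exact le_of_tendsto h2 (hf.mono fun k hk => hk n)
  exact ⟨key g (h1.mono fun k hk => hk.1), key h (h1.mono fun k hk => hk.2)⟩

namespace LF

variable {c c' : X ≃ₜ X} {e : X → E} {F : X → Submodule ℝ E} {D : X → E →ₗ[ℝ] E} {ε₀ C Λ : ℝ}

theorem fwd (L : LF c c' e F D ε₀ C Λ) {x y : X} {n : ℕ}
    (h : R2 c c' (sc ε₀ C Λ) (c^[n] x) (c^[n] y)) (m : ℕ) (hm : n ≤ m) :
    R2 c c' (sc ε₀ C Λ * (1 / 2) ^ (m - n)) (c^[m] x) (c^[m] y) := by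
  have h1 := L.jt _ _ (h.mono L.sc_le) (m - n) 0
  simp only [Function.iterate_zero, id_eq, add_zero] at h1
  rw [← Function.iterate_add_apply, ← Function.iterate_add_apply, Nat.sub_add_cancel hm] at h1
  refine h1.mono ?_
  have h2 : dist (c^[n] x) (c^[n] y) ≤ sc ε₀ C Λ := h.1 0
  rw [mul_comm]
  exact mul_le_mul_of_nonneg_right h2 (by positivity)

theorem fwd' (L : LF c c' e F D ε₀ C Λ) {x y : X} {n : ℕ}
    (h : R2 c c' (sc ε₀ C Λ) (c^[n] x) (c^[n] y)) {m : ℕ} (hm : n ≤ m) :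
    R2 c c' (sc ε₀ C Λ) (c^[m] x) (c^[m] y) := (L.fwd h m hm).mono (by
  have := half_pow_le (m - n)
  have := L.sc_pos
  nlinarith)

theorem small (L : LF c c' e F D ε₀ C Λ) {x y : X} (h : LW c c' (sc ε₀ C Λ) x y) {ε : ℝ}
    (hε : 0 < ε) : ∃ n₀ : ℕ, ∀ m ≥ n₀, R2 c c' ε (c^[m] x) (c^[m] y) := by
  obtain ⟨n, hn⟩ := h
  obtain ⟨k, hk⟩ := pw (c := sc ε₀ C Λ) hε
  refine ⟨n + k, fun m hm => (L.fwd hn m (by omega)).mono ?_⟩
  exact (pw_anti L.sc_pos (show k ≤ m - n by omega)).trans hk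

theorem W_refl (L : LF c c' e F D ε₀ C Λ) (x : X) : LW c c' (sc ε₀ C Λ) x x :=
  ⟨0, sr_refl _ L.sc_pos.le _, sr_refl _ L.sc_pos.le _⟩

theorem W_symm (_L : LF c c' e F D ε₀ C Λ) {x y : X} (h : LW c c' (sc ε₀ C Λ) x y) :
    LW c c' (sc ε₀ C Λ) y x := by
  obtain ⟨n, hn⟩ := h
  exact ⟨n, hn.symm⟩

theorem W_trans (L : LF c c' e F D ε₀ C Λ) {x y z : X} (h : LW c c' (sc ε₀ C Λ) x y)
    (h' : LW c c' (sc ε₀ C Λ) y z) : LW c c' (sc ε₀ C Λ) x z := by
  obtain ⟨n, hn⟩ := L.small h (half_pos L.sc_pos)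
  obtain ⟨m, hm⟩ := L.small h' (half_pos L.sc_pos)
  refine ⟨max n m, ?_⟩
  have := (hn _ (le_max_left n m)).trans (hm _ (le_max_right n m))
  rwa [add_halves] at this

theorem W_of (L : LF c c' e F D ε₀ C Λ) {x y : X} (h : R2 c c' ε₀ x y) :
    LW c c' (sc ε₀ C Λ) x y := by
  obtain ⟨k, hk⟩ := pw (c := ε₀) L.sc_pos
  refine ⟨k, ?_⟩
  have h1 := L.jt _ _ h k 0
  simp only [Function.iterate_zero, id_eq, add_zero] at h1
  refine h1.mono (le_trans ?_ hk)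
  have h2 : dist x y ≤ ε₀ := h.1 0
  rw [mul_comm]
  exact mul_le_mul_of_nonneg_right h2 (by positivity)

theorem W_iter (_L : LF c c' e F D ε₀ C Λ) {x y : X} (m : ℕ) :
    LW c c' (sc ε₀ C Λ) (c^[m] x) (c^[m] y) → LW c c' (sc ε₀ C Λ) x y := by
  rintro ⟨n, hn⟩
  refine ⟨n + m, ?_⟩
  rw [Function.iterate_add_apply, Function.iterate_add_apply]
  exact hn

theorem W_iter' (L : LF c c' e F D ε₀ C Λ) {x y : X} (m : ℕ) (h : LW c c' (sc ε₀ C Λ) x y) :
    LW c c' (sc ε₀ C Λ) (c^[m] x) (c^[m] y) := by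
  obtain ⟨n, hn⟩ := L.small h L.sc_pos
  refine ⟨n, ?_⟩
  rw [← Function.iterate_add_apply, ← Function.iterate_add_apply]
  exact hn _ (by omega)

/-- convergence along the leaf -/
theorem conv' (L : LF c c' e F D ε₀ C Λ) {x y : X} (hxy : LW c c' (sc ε₀ C Λ) x y)
    {u : E} (hu : u ∈ F x) (h : u ≠ 0) :
    Tendsto (fun n => Tn c D e n x u y) atTop (𝓝 (TT c D e x u y)) := by
  obtain ⟨n, hn⟩ := hxy
  have h1 := (L.conv hn (L.vec_mem n x hu) (L.vec_ne n x hu h)).1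
  simp only [Tn_shift] at h1
  rw [tendsto_add_atTop_iff_nat (f := fun k => Tn c D e k x u y) n] at h1
  have e1 : TT c D e x u y = TT c D e (c^[n] x) (vec c D n x u) (c^[n] y) := h1.limUnder_eq
  rw [e1]
  exact h1

theorem TT_shift (L : LF c c' e F D ε₀ C Λ) {x y : X} (hxy : LW c c' (sc ε₀ C Λ) x y)
    {u : E} (hu : u ∈ F x) (h : u ≠ 0) (m : ℕ) :
    TT c D e (c^[m] x) (vec c D m x u) (c^[m] y) = TT c D e x u y := by
  have h1 := L.conv' hxy hu h
  rw [← tendsto_add_atTop_iff_nat (f := fun k => Tn c D e k x u y) m] at h1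
  have h2 : Tendsto (fun k => Tn c D e k (c^[m] x) (vec c D m x u) (c^[m] y)) atTop
      (𝓝 (TT c D e x u y)) := by
    simp only [Tn_shift]
    exact h1
  exact h2.limUnder_eq

theorem TT_step (L : LF c c' e F D ε₀ C Λ) {x y : X} (hxy : LW c c' (sc ε₀ C Λ) x y)
    {u : E} (hu : u ∈ F x) (h : u ≠ 0) :
    TT c D e (c x) (D x u) (c y) = TT c D e x u y := L.TT_shift hxy hu h 1

theorem TT_smul (L : LF c c' e F D ε₀ C Λ) {x y : X} (hxy : LW c c' (sc ε₀ C Λ) x y)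
    {u : E} (hu : u ∈ F x) (h : u ≠ 0) (r : ℝ) :
    TT c D e x (r • u) y = TT c D e x u y / r := by
  have h1 := (L.conv' hxy hu h).div_const r
  have h2 : Tendsto (fun n => Tn c D e n x (r • u) y) atTop (𝓝 (TT c D e x u y / r)) := by
    refine h1.congr fun n => ?_
    unfold Tn
    rw [vec_smul, t0_smul]
  exact h2.limUnder_eq

theorem TT_self (L : LF c c' e F D ε₀ C Λ) (x : X) {u : E} (hu : u ∈ F x) (h : u ≠ 0) :
    TT c D e x u x = 0 := by
  have h1 := (L.bounds (x := x) (y := x) ⟨sr_refl _ L.sc_pos.le _, sr_refl _ L.sc_pos.le _⟩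
    hu h).1
  rw [dist_self, mul_zero] at h1
  have h2 : 0 < ‖u‖ := norm_pos_iff.mpr h
  have h3 := abs_nonneg (TT c D e x u x)
  have h4 : |TT c D e x u x| = 0 := by nlinarith
  exact abs_eq_zero.mp h4

/-- properness of the affine coordinate -/
theorem proper [CompactSpace X] (L : LF c c' e F D ε₀ C Λ) : ∃ κ > 0, ∀ (x y : X) (u : E),
    LW c c' (sc ε₀ C Λ) x y → u ∈ F x → u ≠ 0 → |TT c D e x u y| * ‖u‖ ≤ κ →
      R2 c c' (sc ε₀ C Λ) x y := by
  obtain ⟨δ, hδ, hs⟩ := uc1 (b := c.symm) c.symm.continuous L.sc_pos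
  refine ⟨δ / 4, by linarith, ?_⟩
  have key : ∀ (n : ℕ) (x y : X) (u : E), R2 c c' (sc ε₀ C Λ) (c^[n] x) (c^[n] y) → u ∈ F x →
      u ≠ 0 → |TT c D e x u y| * ‖u‖ ≤ δ / 4 → R2 c c' (sc ε₀ C Λ) x y := by
    intro n
    induction n with
    | zero => intro x y u h _ _ _; exact h
    | succ n ih =>
      intro x y u h hu hu0 hT
      have hW : LW c c' (sc ε₀ C Λ) x y := ⟨n + 1, h⟩
      have h1 := L.contr x u hu
      have hn0 : 0 ≤ |TT c D e x u y| := abs_nonneg _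
      have h2 : |TT c D e (c x) (D x u) (c y)| * ‖D x u‖ ≤ δ / 4 := by
        rw [L.TT_step hW hu hu0]
        have : |TT c D e x u y| * ‖D x u‖ ≤ |TT c D e x u y| * ‖u‖ :=
          mul_le_mul_of_nonneg_left (by linarith [norm_nonneg u]) hn0
        linarith
      have h3 := ih (c x) (c y) (D x u) (by
        rw [Function.iterate_succ_apply, Function.iterate_succ_apply] at h; exact h)
        (L.map x u hu) (L.ne_zero x hu hu0) h2
      have h4 := (L.bounds h3 (L.map x u hu) (L.ne_zero x hu hu0)).2.1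
      have h5 : dist (c x) (c y) ≤ δ := by linarith
      have hback : ∀ z w, dist (c z) (c w) ≤ δ → dist z w ≤ sc ε₀ C Λ := fun z w hzw => by
        have := hs _ _ hzw
        rwa [c.symm_apply_apply, c.symm_apply_apply] at this
      constructor
      · intro k
        rcases k with _ | k
        · exact hback _ _ h5
        · rw [Function.iterate_succ_apply, Function.iterate_succ_apply]
          exact h3.1 k
      · intro k
        apply hback
        rw [comm_it (b := c) (g := c') (fun x => (L.comm x).symm) k x,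
          comm_it (b := c) (g := c') (fun x => (L.comm x).symm) k y]
        have h6 := (L.ctr'.sr (h3.2.mono L.sc_le) h5) k
        exact h6
  intro x y u hW hu hu0 hT
  obtain ⟨n, hn⟩ := hW
  exact key n x y u hn hu hu0 hT

theorem e_cont (L : LF c c' e F D ε₀ C Λ) : Continuous e :=
  (Isometry.of_dist_eq fun x y => by rw [L.isom, dist_eq_norm]).continuous

theorem vec_tendsto (L : LF c c' e F D ε₀ C Λ) {κ : Type*} {l : Filter κ} {x : κ → X} {u : κ → E}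
    {x₀ : X} {u₀ : E} (hx : Tendsto x l (𝓝 x₀)) (hu : Tendsto u l (𝓝 u₀))
    (hF : ∀ᶠ k in l, u k ∈ F (x k)) (hF₀ : u₀ ∈ F x₀) (n : ℕ) :
    Tendsto (fun k => vec c D n (x k) (u k)) l (𝓝 (vec c D n x₀ u₀)) := by
  induction n with
  | zero => exact hu
  | succ n ih =>
    have h1 : Tendsto (fun k => (c^[n] (x k), vec c D n (x k) (u k))) l
        (𝓝[{p : X × E | p.2 ∈ F p.1}] (c^[n] x₀, vec c D n x₀ u₀)) := by
      rw [tendsto_nhdsWithin_iff]
      refine ⟨(((c.continuous.iterate n).tendsto x₀).comp hx).prodMk_nhds ih, ?_⟩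
      filter_upwards [hF] with k hk
      exact L.vec_mem n (x k) hk
    exact (L.Dcont (c^[n] x₀, vec c D n x₀ u₀) (L.vec_mem n x₀ hF₀)).tendsto.comp h1

theorem t0_tendsto (L : LF c c' e F D ε₀ C Λ) {κ : Type*} {l : Filter κ} {x y : κ → X}
    {u : κ → E} {x₀ y₀ : X} {u₀ : E} (hx : Tendsto x l (𝓝 x₀)) (hy : Tendsto y l (𝓝 y₀))
    (hu : Tendsto u l (𝓝 u₀)) (h0 : u₀ ≠ 0) :
    Tendsto (fun k => t0 e (x k) (u k) (y k)) l (𝓝 (t0 e x₀ u₀ y₀)) := by
  unfold t0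
  apply Tendsto.div
  · exact (((L.e_cont.tendsto y₀).comp hy).sub ((L.e_cont.tendsto x₀).comp hx)).inner hu
  · exact hu.norm.pow 2
  · exact pow_ne_zero 2 (norm_ne_zero_iff.mpr h0)

/-- continuity of the affine coordinate on local pairs -/
theorem TT_tendsto (L : LF c c' e F D ε₀ C Λ) {κ : Type*} {l : Filter κ} {x y : κ → X}
    {u : κ → E} {x₀ y₀ : X} {u₀ : E} (hx : Tendsto x l (𝓝 x₀)) (hy : Tendsto y l (𝓝 y₀))
    (hu : Tendsto u l (𝓝 u₀)) (hF : ∀ᶠ k in l, u k ∈ F (x k)) (hF₀ : u₀ ∈ F x₀) (h0 : u₀ ≠ 0)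
    (hR : ∀ᶠ k in l, R2 c c' (sc ε₀ C Λ) (x k) (y k)) :
    Tendsto (fun k => TT c D e (x k) (u k) (y k)) l (𝓝 (TT c D e x₀ u₀ y₀)) := by
  rcases l.eq_or_neBot with hl | hl
  · rw [hl]; exact tendsto_bot
  have hL := L.L_pos
  have hC := L.C_pos
  have hsc := L.sc_pos
  have hR₀ := closed_R2 c c' _ hx hy hR
  have hn0 : 0 < ‖u₀‖ := norm_pos_iff.mpr h0
  rw [Metric.tendsto_nhds]
  intro ε hε
  set M := 16 * C * Λ * (sc ε₀ C Λ * (2 * sc ε₀ C Λ / ‖u₀‖)) with hM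
  have hM0 : 0 ≤ M := by positivity
  obtain ⟨n, hn⟩ := pw (c := M) (show 0 < ε / 4 by linarith)
  have hbd : ∀ (x y : X) (u : E), u ∈ F x → ‖u₀‖ / 2 ≤ ‖u‖ → R2 c c' (sc ε₀ C Λ) x y →
      |TT c D e x u y - Tn c D e n x u y| ≤ ε / 4 := by
    intro x y u hu hun hxy
    have hu0 : 0 < ‖u‖ := by linarith
    have h1 := (L.conv hxy hu (norm_pos_iff.mp hu0)).2 n
    have h2 := L.t0_le x y (norm_pos_iff.mp hu0)
    have h3 : dist x y ≤ sc ε₀ C Λ := hxy.1 0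
    have h4 : |t0 e x u y| ≤ 2 * sc ε₀ C Λ / ‖u₀‖ := by
      rw [le_div_iff₀ hn0]
      have : |t0 e x u y| * (‖u₀‖ / 2) ≤ |t0 e x u y| * ‖u‖ :=
        mul_le_mul_of_nonneg_left hun (abs_nonneg _)
      linarith
    refine h1.trans (le_trans ?_ hn)
    apply mul_le_mul_of_nonneg_right _ (by positivity)
    rw [hM]
    apply mul_le_mul_of_nonneg_left _ (by positivity)
    exact mul_le_mul h3 h4 (abs_nonneg _) hsc.le
  have hTn : Tendsto (fun k => Tn c D e n (x k) (u k) (y k)) l (𝓝 (Tn c D e n x₀ u₀ y₀)) :=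
    L.t0_tendsto (((c.continuous.iterate n).tendsto x₀).comp hx)
      (((c.continuous.iterate n).tendsto y₀).comp hy) (L.vec_tendsto hx hu hF hF₀ n)
      (L.vec_ne n x₀ hF₀ h0)
  have hev1 := (Metric.tendsto_nhds.mp hTn) (ε / 4) (by linarith)
  have hev2 : ∀ᶠ k in l, ‖u₀‖ / 2 < ‖u k‖ :=
    (tendsto_order.mp hu.norm).1 _ (by linarith)
  filter_upwards [hev1, hev2, hF, hR] with k h1 h2 h3 h4
  have h5 := hbd _ _ _ h3 h2.le h4
  have h6 := hbd _ _ _ hF₀ (by linarith) hR₀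
  rw [Real.dist_eq] at h1 ⊢
  have h7 := abs_sub_le (TT c D e (x k) (u k) (y k)) (Tn c D e n (x k) (u k) (y k))
    (TT c D e x₀ u₀ y₀)
  have h8 := abs_sub_le (Tn c D e n (x k) (u k) (y k)) (Tn c D e n x₀ u₀ y₀) (TT c D e x₀ u₀ y₀)
  rw [abs_sub_comm] at h6
  linarith

end LF

end Pool.Agent.Y330.F
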