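import Pool.Agent.H66.L.S8.Y330.F.B3

set_option autoImplicit false
set_option linter.unusedSectionVars false

open Filter Topology Set Metric
open scoped InnerProductSpace

namespace Pool.Agent.Y330.F

open Pool.Agent.H789R2.AN Pool.Agent.Y330.G

variable {X : Type*} [MetricSpace X] {E : Type*} [NormedAddCommGroup E] [InnerProductSpace ℝ E]

namespace LF

variable {c c' : X ≃ₜ X} {e : X → E} {F : X → Submodule ℝ E} {D : X → E →ₗ[ℝ] E} {ε₀ C Λ : ℝ}

theorem R2_self (L : LF c c' e F D ε₀ C Λ) {x y : X} {r : ℝ} (h : R2 c c' ε₀ x y)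
    (hd : dist x y ≤ r) : R2 c c' r x y :=
  ⟨L.ctr.sr h.1 hd, L.ctr'.sr h.2 hd⟩

theorem iso (L : LF c c' e F D ε₀ C Λ) (x y : X) : dist x y = ‖e y - e x‖ := by
  rw [L.isom, norm_sub_rev]

/-- the affine coordinate takes a dense set of values -/
theorem TT_dense (L : LF c c' e F D ε₀ C Λ) (x : X) {u : E} (hu : u ∈ F x) (h0 : u ≠ 0) (r : ℝ)
    {η : ℝ} (hη : 0 < η) : ∃ y, LW c c' (sc ε₀ C Λ) x y ∧ |TT c D e x u y - r| ≤ η := by
  have hL := L.L_pos
  have hC := L.C_pos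
  have hsc := L.sc_pos
  by_cases hr : r = 0
  · exact ⟨x, L.W_refl x, by rw [hr, L.TT_self x hu h0, sub_zero, abs_zero]; exact hη.le⟩
  have hr0 : 0 < |r| := abs_pos.mpr hr
  have hn0 : 0 < ‖u‖ := norm_pos_iff.mpr h0
  set η' := min (η / (4 * |r|)) (1 / 4) with hη'
  have hη'0 : 0 < η' := lt_min (by positivity) (by norm_num)
  have hη'1 : η' * |r| ≤ η / 4 := by
    have : η' ≤ η / (4 * |r|) := min_le_left _ _
    rw [le_div_iff₀ (by positivity)] at this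
    linarith
  have hη'2 : η' ≤ 1 / 4 := min_le_right _ _
  obtain ⟨ρ, hρ, hdir⟩ := L.dir η' hη'0
  set β := min ρ (min (sc ε₀ C Λ / 2) (η / (256 * C * Λ * |r|))) with hβ
  have hβ0 : 0 < β := lt_min hρ (lt_min (half_pos hsc) (by positivity))
  have hβ1 : β ≤ ρ := min_le_left _ _
  have hβ2 : β ≤ sc ε₀ C Λ / 2 := (min_le_right _ _).trans (min_le_left _ _)
  have hβ3 : 256 * C * Λ * |r| * β ≤ η := by
    have : β ≤ η / (256 * C * Λ * |r|) := (min_le_right _ _).trans (min_le_right _ _)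
    rw [le_div_iff₀ (by positivity)] at this
    linarith
  obtain ⟨n, hn⟩ := pw (c := |r| * ‖u‖) hβ0
  have hun := L.vec_mem n x hu
  have hun0 := L.vec_ne n x hu h0
  set w := vec c D n x u with hw
  have hw0 : 0 < ‖w‖ := norm_pos_iff.mpr hun0
  have hwn : |r| * ‖w‖ ≤ β := by
    have h1 := L.vec_le n x hu
    have : |r| * ‖w‖ ≤ |r| * ((1 / 2) ^ n * ‖u‖) := mul_le_mul_of_nonneg_left h1 hr0.le
    calc _ ≤ _ := this
      _ = |r| * ‖u‖ * (1 / 2) ^ n := by ring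
      _ ≤ _ := hn
  have hv : ‖r • w‖ = |r| * ‖w‖ := by rw [norm_smul, Real.norm_eq_abs]
  obtain ⟨y', hy1, hy2⟩ := hdir (c^[n] x) (r • w) ((F _).smul_mem r hun)
    (by rw [hv]; exact hwn.trans hβ1)
  rw [hv] at hy2
  have hd : dist (c^[n] x) y' ≤ 2 * (|r| * ‖w‖) := by
    rw [L.iso]
    have e1 : e y' - e (c^[n] x) = r • w + (e y' - e (c^[n] x) - r • w) := by abel
    have := norm_add_le (r • w) (e y' - e (c^[n] x) - r • w)
    rw [← e1, hv] at this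
    have h2 : η' * (|r| * ‖w‖) ≤ 1 * (|r| * ‖w‖) :=
      mul_le_mul_of_nonneg_right (by linarith) (by positivity)
    linarith
  have hR : R2 c c' (sc ε₀ C Λ) (c^[n] x) y' := L.R2_self hy1 (by linarith)
  have ht0 : |t0 e (c^[n] x) w y' - r| ≤ η' * |r| := by
    have h1 := (t0_err e (c^[n] x) w hun0 y' r).trans hy2
    have : |t0 e (c^[n] x) w y' - r| * ‖w‖ ≤ (η' * |r|) * ‖w‖ := by linarith
    exact le_of_mul_le_mul_right this hw0
  have hbd := (L.bounds hR hun hun0).2.2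
  have ht0' : |t0 e (c^[n] x) w y'| ≤ 2 * |r| := by
    have h1 := abs_sub_abs_le_abs_sub (t0 e (c^[n] x) w y') r
    have h2 : η' * |r| ≤ 1 * |r| := mul_le_mul_of_nonneg_right (by linarith) hr0.le
    linarith
  have hfin : |TT c D e (c^[n] x) w y' - r| ≤ η := by
    have h1 := abs_sub_le (TT c D e (c^[n] x) w y') (t0 e (c^[n] x) w y') r
    have h2 : dist (c^[n] x) y' * |t0 e (c^[n] x) w y'| ≤ (2 * β) * (2 * |r|) :=
      mul_le_mul (by linarith) ht0' (abs_nonneg _) (by linarith)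
    have h3 : 16 * C * Λ * (dist (c^[n] x) y' * |t0 e (c^[n] x) w y'|) ≤
        16 * C * Λ * ((2 * β) * (2 * |r|)) := mul_le_mul_of_nonneg_left h2 (by positivity)
    have h4 : 16 * C * Λ * ((2 * β) * (2 * |r|)) = 256 * C * Λ * |r| * β / 4 := by ring
    linarith
  have e1 : c^[n] (c.symm^[n] y') = y' := iterR c n y'
  have hW : LW c c' (sc ε₀ C Λ) x (c.symm^[n] y') := ⟨n, by rw [e1]; exact hR⟩
  refine ⟨c.symm^[n] y', hW, ?_⟩
  have h2 := L.TT_shift hW hu h0 n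
  rw [e1] at h2
  rw [← h2]
  exact hfin

/-- the affine coordinate is onto -/
theorem TT_surj [CompactSpace X] (L : LF c c' e F D ε₀ C Λ) (x : X) {u : E} (hu : u ∈ F x)
    (h0 : u ≠ 0) (r : ℝ) : ∃ y, LW c c' (sc ε₀ C Λ) x y ∧ TT c D e x u y = r := by
  obtain ⟨κ, hκ, hprop⟩ := L.proper
  have hd : ∀ k : ℕ, ∃ y, LW c c' (sc ε₀ C Λ) x y ∧ |TT c D e x u y - r| ≤ 1 / ((k : ℝ) + 1) :=
    fun k => L.TT_dense x hu h0 r (by positivity)
  choose y hy1 hy2 using hd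
  obtain ⟨n, hn⟩ := pw (c := (|r| + 1) * ‖u‖) hκ
  have hun := L.vec_mem n x hu
  have hun0 := L.vec_ne n x hu h0
  set w := vec c D n x u with hw
  have hTT : ∀ k, TT c D e (c^[n] x) w (c^[n] (y k)) = TT c D e x u (y k) := fun k =>
    L.TT_shift (hy1 k) hu h0 n
  have hR : ∀ k, R2 c c' (sc ε₀ C Λ) (c^[n] x) (c^[n] (y k)) := by
    intro k
    refine hprop _ _ w (L.W_iter' n (hy1 k)) hun hun0 ?_
    rw [hTT k]
    have h1 := L.vec_le n x hu
    have h2 : |TT c D e x u (y k)| ≤ |r| + 1 := by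
      have h3 := abs_sub_abs_le_abs_sub (TT c D e x u (y k)) r
      have h4 : 1 / ((k : ℝ) + 1) ≤ 1 := by
        rw [div_le_one (by positivity)]
        linarith [Nat.cast_nonneg (α := ℝ) k]
      linarith [hy2 k]
    calc |TT c D e x u (y k)| * ‖w‖ ≤ (|r| + 1) * ((1 / 2) ^ n * ‖u‖) :=
          mul_le_mul h2 h1 (norm_nonneg _) (by positivity)
      _ = (|r| + 1) * ‖u‖ * (1 / 2) ^ n := by ring
      _ ≤ κ := hn
  obtain ⟨y', -, φ, hφ, hlim⟩ := isCompact_univ.tendsto_subseq (x := fun k => c^[n] (y k))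
    (fun _ => mem_univ _)
  have h1 : Tendsto (fun k => TT c D e (c^[n] x) w (c^[n] (y (φ k)))) atTop
      (𝓝 (TT c D e (c^[n] x) w y')) :=
    L.TT_tendsto tendsto_const_nhds hlim tendsto_const_nhds (Eventually.of_forall fun _ => hun)
      hun hun0 (Eventually.of_forall fun k => hR (φ k))
  have h2 : Tendsto (fun k => TT c D e x u (y (φ k))) atTop (𝓝 r) := by
    have h3 : Tendsto (fun k : ℕ => 1 / ((k : ℝ) + 1)) atTop (𝓝 0) :=
      tendsto_one_div_add_atTop_nhds_zero_nat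
    have h4 := h3.comp hφ.tendsto_atTop
    rw [tendsto_iff_norm_sub_tendsto_zero]
    exact squeeze_zero (fun _ => norm_nonneg _) (fun k => hy2 (φ k)) h4
  simp only [hTT] at h1
  have h3 := tendsto_nhds_unique h1 h2
  have hR' : R2 c c' (sc ε₀ C Λ) (c^[n] x) y' :=
    closed_R2 c c' _ tendsto_const_nhds hlim (Eventually.of_forall fun k => hR (φ k))
  have e1 : c^[n] (c.symm^[n] y') = y' := iterR c n y'
  have hW : LW c c' (sc ε₀ C Λ) x (c.symm^[n] y') := ⟨n, by rw [e1]; exact hR'⟩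
  refine ⟨c.symm^[n] y', hW, ?_⟩
  have h4 := L.TT_shift hW hu h0 n
  rw [e1] at h4
  rw [← h4]
  exact h3

/-- distinct points of a leaf have nonzero coordinate -/
theorem TT_ne (L : LF c c' e F D ε₀ C Λ) {x y : X} (h : LW c c' (sc ε₀ C Λ) x y) (hne : x ≠ y)
    {u : E} (hu : u ∈ F x) (h0 : u ≠ 0) : TT c D e x u y ≠ 0 := by
  intro hT
  obtain ⟨n, hn⟩ := h
  have h1 := (L.bounds hn (L.vec_mem n x hu) (L.vec_ne n x hu h0)).2.1
  rw [L.TT_shift ⟨n, hn⟩ hu h0 n, hT, abs_zero, zero_mul, mul_zero] at h1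
  have h2 : c^[n] x = c^[n] y := dist_le_zero.mp h1
  exact hne ((c.injective.iterate n) h2)

/-- the affine coordinate is injective -/
theorem TT_inj (L : LF c c' e F D ε₀ C Λ) {x y y' : X} (h : LW c c' (sc ε₀ C Λ) x y)
    (h' : LW c c' (sc ε₀ C Λ) x y') {u : E} (hu : u ∈ F x) (h0 : u ≠ 0)
    (he : TT c D e x u y = TT c D e x u y') : y = y' := by
  have hL := L.L_pos
  have hC := L.C_pos
  by_contra hne
  by_cases hxy : x = y
  · subst hxy
    rw [L.TT_self x hu h0] at he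
    exact L.TT_ne h' hne hu h0 he.symm
  obtain ⟨w, hw, hw0, -⟩ := L.line y
  have hyx := L.W_symm h
  have hyy' := L.W_trans hyx h'
  have hT0 := L.TT_ne h hxy hu h0
  have hT1 := L.TT_ne hyy' hne hw hw0
  have hT2 := L.TT_ne hyx (fun h => hxy h.symm) hw hw0
  set T := TT c D e x u y with hT
  set T' := TT c D e y w y' with hT'
  set T'' := TT c D e y w x with hT''
  have hTp : 0 < |T| := abs_pos.mpr hT0
  have hTp' : 0 < |T'| := abs_pos.mpr hT1
  have hTp'' : 0 < |T''| := abs_pos.mpr hT2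
  obtain ⟨n1, hn1⟩ := L.small h L.sc_pos
  obtain ⟨n2, hn2⟩ := L.small h' L.sc_pos
  obtain ⟨n3, hn3⟩ := L.small hyy' L.sc_pos
  -- chord estimate
  have hch : ∀ z, LW c c' (sc ε₀ C Λ) x z → TT c D e x u z = T → ∀ n,
      R2 c c' (sc ε₀ C Λ) (c^[n] x) (c^[n] z) →
      ‖e (c^[n] z) - e (c^[n] x) - T • vec c D n x u‖ ≤
        18 * C * Λ * (4 * (|T| * ‖vec c D n x u‖)) ^ 2 := by
    intro z hz hzT n hR
    have hvm := L.vec_mem n x hu
    have hvn := L.vec_ne n x hu h0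
    have hd0 : 0 ≤ dist (c^[n] x) (c^[n] z) := dist_nonneg
    have k1 := (L.step (hR.mono L.sc_le) (L.sc_le'' hd0 (hR.1 0)) hvm hvn).2.2
    have k2 := L.bounds hR hvm hvn
    rw [L.TT_shift hz hu h0 n, hzT] at k2
    have k3 := L.t0_le (c^[n] x) (c^[n] z) hvn
    set v := vec c D n x u
    set d := dist (c^[n] x) (c^[n] z)
    set t := t0 e (c^[n] x) v (c^[n] z)
    have e1 : e (c^[n] z) - e (c^[n] x) - T • v =
        (e (c^[n] z) - e (c^[n] x) - t • v) - (T - t) • v := by rw [sub_smul]; abel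
    have k4 := norm_sub_le (e (c^[n] z) - e (c^[n] x) - t • v) ((T - t) • v)
    rw [← e1, norm_smul, Real.norm_eq_abs] at k4
    have k5 : |T - t| * ‖v‖ ≤ 16 * C * Λ * d ^ 2 := by
      calc |T - t| * ‖v‖ ≤ 16 * C * Λ * (d * |t|) * ‖v‖ :=
            mul_le_mul_of_nonneg_right k2.2.2 (norm_nonneg _)
        _ = 16 * C * Λ * d * (|t| * ‖v‖) := by ring
        _ ≤ 16 * C * Λ * d * d := mul_le_mul_of_nonneg_left k3 (by positivity)
        _ = _ := by ring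
    have k6 : 2 * C * d ^ 2 ≤ 2 * C * Λ * d ^ 2 := by
      have : 0 ≤ C * d ^ 2 := by positivity
      nlinarith
    have k7 : d ^ 2 ≤ (4 * (|T| * ‖v‖)) ^ 2 := pow_le_pow_left₀ hd0 k2.2.1 2
    have k8 : 18 * C * Λ * d ^ 2 ≤ 18 * C * Λ * (4 * (|T| * ‖v‖)) ^ 2 :=
      mul_le_mul_of_nonneg_left k7 (by positivity)
    linarith
  -- contradiction for large times
  set A := |T'| * |T| / (16 * |T''|) with hA
  have hA0 : 0 < A := by positivity
  have hkey : ∀ n, n1 ≤ n → n2 ≤ n → n3 ≤ n →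
      A ≤ 36 * C * Λ * (16 * |T| ^ 2) * ‖u‖ * (1 / 2) ^ n := by
    intro n h1 h2 h3
    have hvn := L.vec_ne n x hu h0
    have hwm := L.vec_mem n y hw
    have hwn := L.vec_ne n y hw hw0
    set v := vec c D n x u with hv
    set z := vec c D n y w with hz
    have hvp : 0 < ‖v‖ := norm_pos_iff.mpr hvn
    have k1 := hch y h rfl n (hn1 n h1)
    have k2 := hch y' h' he.symm n (hn2 n h2)
    have k3 : dist (c^[n] y) (c^[n] y') ≤ 36 * C * Λ * (4 * (|T| * ‖v‖)) ^ 2 := by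
      rw [L.iso]
      have e1 : e (c^[n] y') - e (c^[n] y) = (e (c^[n] y') - e (c^[n] x) - T • v) -
        (e (c^[n] y) - e (c^[n] x) - T • v) := by abel
      rw [e1]
      have := norm_sub_le (e (c^[n] y') - e (c^[n] x) - T • v)
        (e (c^[n] y) - e (c^[n] x) - T • v)
      linarith
    have k4 := (L.bounds (hn3 n h3) hwm hwn).1
    rw [L.TT_shift hyy' hw hw0 n] at k4
    have k5 := (L.bounds (hn1 n h1).symm hwm hwn).2.1
    rw [L.TT_shift hyx hw hw0 n] at k5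
    have k6 := (L.bounds (hn1 n h1) (L.vec_mem n x hu) hvn).1
    rw [L.TT_shift h hu h0 n, dist_comm] at k6
    -- `|T| ‖v‖ ≤ 8 |T''| ‖z‖`
    have k7 : |T| * ‖v‖ ≤ 8 * (|T''| * ‖z‖) := by linarith
    have k8 : A * ‖v‖ ≤ 36 * C * Λ * (4 * (|T| * ‖v‖)) ^ 2 := by
      have : A * ‖v‖ ≤ |T'| * ‖z‖ / 2 := by
        rw [hA, div_mul_eq_mul_div, div_le_iff₀ (by positivity)]
        have : |T'| * (|T| * ‖v‖) ≤ |T'| * (8 * (|T''| * ‖z‖)) :=
          mul_le_mul_of_nonneg_left k7 hTp'.le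
        linarith
      linarith
    have k9 : A ≤ 36 * C * Λ * (16 * |T| ^ 2) * ‖v‖ := by
      have e1 : 36 * C * Λ * (4 * (|T| * ‖v‖)) ^ 2 =
        (36 * C * Λ * (16 * |T| ^ 2) * ‖v‖) * ‖v‖ := by ring
      rw [e1] at k8
      exact le_of_mul_le_mul_right k8 hvp
    have k10 := L.vec_le n x hu
    calc A ≤ 36 * C * Λ * (16 * |T| ^ 2) * ‖v‖ := k9
      _ ≤ 36 * C * Λ * (16 * |T| ^ 2) * ((1 / 2) ^ n * ‖u‖) :=
        mul_le_mul_of_nonneg_left k10 (by positivity)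
      _ = _ := by ring
  obtain ⟨m, hm⟩ := pw (c := 36 * C * Λ * (16 * |T| ^ 2) * ‖u‖) (half_pos hA0)
  have hnu : 0 < ‖u‖ := norm_pos_iff.mpr h0
  have k1 := hkey (max m (max n1 (max n2 n3))) ((le_max_left _ _).trans (le_max_right _ _))
    (((le_max_left _ _).trans (le_max_right _ _)).trans (le_max_right _ _))
    (((le_max_right _ _).trans (le_max_right _ _)).trans (le_max_right _ _))
  have k2 := pw_anti (c := 36 * C * Λ * (16 * |T| ^ 2) * ‖u‖) (by positivity)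
    (le_max_left m (max n1 (max n2 n3)))
  linarith

end LF

open Classical in
/-- the point with given affine coordinate -/
noncomputable def YY (c c' : X ≃ₜ X) (s : ℝ) (D : X → E →ₗ[ℝ] E) (e : X → E) (x : X) (u : E)
    (r : ℝ) : X :=
  if h : ∃ y, LW c c' s x y ∧ TT c D e x u y = r then h.choose else x

namespace LF

variable {c c' : X ≃ₜ X} {e : X → E} {F : X → Submodule ℝ E} {D : X → E →ₗ[ℝ] E} {ε₀ C Λ : ℝ}

theorem YY_spec [CompactSpace X] (L : LF c c' e F D ε₀ C Λ) (x : X) {u : E} (hu : u ∈ F x)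
    (h0 : u ≠ 0) (r : ℝ) : LW c c' (sc ε₀ C Λ) x (YY c c' (sc ε₀ C Λ) D e x u r) ∧
      TT c D e x u (YY c c' (sc ε₀ C Λ) D e x u r) = r := by
  have h := L.TT_surj x hu h0 r
  unfold YY
  rw [dif_pos h]
  exact h.choose_spec

theorem YY_eq [CompactSpace X] (L : LF c c' e F D ε₀ C Λ) {x : X} {u : E} (hu : u ∈ F x)
    (h0 : u ≠ 0) {r : ℝ} {y : X} (h : LW c c' (sc ε₀ C Λ) x y) (hT : TT c D e x u y = r) :
    YY c c' (sc ε₀ C Λ) D e x u r = y := by
  obtain ⟨h1, h2⟩ := L.YY_spec x hu h0 r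
  exact L.TT_inj h1 h hu h0 (by rw [h2, hT])

theorem YY_zero [CompactSpace X] (L : LF c c' e F D ε₀ C Λ) {x : X} {u : E} (hu : u ∈ F x)
    (h0 : u ≠ 0) : YY c c' (sc ε₀ C Λ) D e x u 0 = x :=
  L.YY_eq hu h0 (L.W_refl x) (L.TT_self x hu h0)

theorem YY_inj [CompactSpace X] (L : LF c c' e F D ε₀ C Λ) {x : X} {u : E} (hu : u ∈ F x)
    (h0 : u ≠ 0) {r r' : ℝ}
    (h : YY c c' (sc ε₀ C Λ) D e x u r = YY c c' (sc ε₀ C Λ) D e x u r') : r = r' := by
  rw [← (L.YY_spec x hu h0 r).2, h, (L.YY_spec x hu h0 r').2]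

/-- local pairs at a uniform time -/
theorem loc_unif [CompactSpace X] (L : LF c c' e F D ε₀ C Λ) (R : ℝ) {δ : ℝ} (hδ : 0 < δ) :
    ∃ n : ℕ, ∀ m ≥ n, ∀ (x : X) (u : E) (y : X), u ∈ F x → u ≠ 0 → LW c c' (sc ε₀ C Λ) x y →
      |TT c D e x u y| * ‖u‖ ≤ R → R2 c c' δ (c^[m] x) (c^[m] y) := by
  obtain ⟨κ, hκ, hprop⟩ := L.proper
  obtain ⟨n, hn⟩ := pw (c := R) (δ := min κ (δ / 4)) (lt_min hκ (by linarith))
  refine ⟨n, fun m hm x u y hu h0 hW hR => ?_⟩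
  have hR0 : 0 ≤ R := le_trans (by positivity) hR
  have h1 := L.vec_le m x hu
  have h2 : |TT c D e (c^[m] x) (vec c D m x u) (c^[m] y)| * ‖vec c D m x u‖ ≤
      min κ (δ / 4) := by
    rw [L.TT_shift hW hu h0 m]
    calc |TT c D e x u y| * ‖vec c D m x u‖ ≤ |TT c D e x u y| * ((1 / 2) ^ m * ‖u‖) :=
          mul_le_mul_of_nonneg_left h1 (abs_nonneg _)
      _ = |TT c D e x u y| * ‖u‖ * (1 / 2) ^ m := by ring
      _ ≤ R * (1 / 2) ^ m := mul_le_mul_of_nonneg_right hR (by positivity)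
      _ ≤ R * (1 / 2) ^ n := mul_le_mul_of_nonneg_left
          (pow_le_pow_of_le_one (by norm_num) (by norm_num) hm) hR0
      _ ≤ _ := hn
  have h3 := hprop _ _ _ (L.W_iter' m hW) (L.vec_mem m x hu) (L.vec_ne m x hu h0)
    (h2.trans (min_le_left _ _))
  have h4 := (L.bounds h3 (L.vec_mem m x hu) (L.vec_ne m x hu h0)).2.1
  have h5 := h2.trans (min_le_right _ _)
  exact L.R2_self (h3.mono L.sc_le) (by linarith)

/-- continuity -/
theorem YY_tendsto [CompactSpace X] (L : LF c c' e F D ε₀ C Λ) {κ : Type*} {l : Filter κ}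
    {x : κ → X} {u : κ → E} {r : κ → ℝ} {x₀ : X} {u₀ : E} {r₀ : ℝ} (hx : Tendsto x l (𝓝 x₀))
    (hu : Tendsto u l (𝓝 u₀)) (hr : Tendsto r l (𝓝 r₀)) (hF : ∀ᶠ k in l, u k ∈ F (x k))
    (hF₀ : u₀ ∈ F x₀) (h0 : u₀ ≠ 0) :
    Tendsto (fun k => YY c c' (sc ε₀ C Λ) D e (x k) (u k) (r k)) l
      (𝓝 (YY c c' (sc ε₀ C Λ) D e x₀ u₀ r₀)) := by
  apply tendsto_nhds_of_unique_mapClusterPt
  intro z hz
  obtain ⟨U, hU, hUz⟩ := mapClusterPt_iff_ultrafilter.mp hz
  have hx' := hx.mono_left hU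
  have hu' := hu.mono_left hU
  have hr' := hr.mono_left hU
  have hF' : ∀ᶠ k in (U : Filter κ), u k ∈ F (x k) := hU hF
  have hne : ∀ᶠ k in (U : Filter κ), u k ≠ 0 := hu'.eventually_ne h0
  obtain ⟨n, hn⟩ := L.loc_unif (|r₀| * ‖u₀‖ + 1) L.sc_pos
  have hbd : ∀ᶠ k in (U : Filter κ), |r k| * ‖u k‖ < |r₀| * ‖u₀‖ + 1 :=
    (tendsto_order.mp (hr'.abs.mul hu'.norm)).2 _ (by linarith)
  have hR : ∀ᶠ k in (U : Filter κ), R2 c c' (sc ε₀ C Λ) (c^[n] (x k))
      (c^[n] (YY c c' (sc ε₀ C Λ) D e (x k) (u k) (r k))) := by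
    filter_upwards [hF', hne, hbd] with k h1 h2 h3
    obtain ⟨h4, h5⟩ := L.YY_spec (x k) h1 h2 (r k)
    exact hn n le_rfl _ _ _ h1 h2 h4 (by rw [h5]; exact h3.le)
  have hT : ∀ᶠ k in (U : Filter κ), TT c D e (c^[n] (x k)) (vec c D n (x k) (u k))
      (c^[n] (YY c c' (sc ε₀ C Λ) D e (x k) (u k) (r k))) = r k := by
    filter_upwards [hF', hne] with k h1 h2
    obtain ⟨h4, h5⟩ := L.YY_spec (x k) h1 h2 (r k)
    rw [L.TT_shift h4 h1 h2 n, h5]
  have hxn := ((c.continuous.iterate n).tendsto x₀).comp hx'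
  have hyn := ((c.continuous.iterate n).tendsto z).comp hUz
  have hvn := L.vec_tendsto hx' hu' hF' hF₀ n
  have h1 := L.TT_tendsto hxn hyn hvn (hF'.mono fun k hk => L.vec_mem n (x k) hk)
    (L.vec_mem n x₀ hF₀) (L.vec_ne n x₀ hF₀ h0) hR
  have h2 : Tendsto r U (𝓝 (TT c D e (c^[n] x₀) (vec c D n x₀ u₀) (c^[n] z))) :=
    h1.congr' (hT.mono fun k hk => hk)
  have h3 := tendsto_nhds_unique h2 hr'
  have h4 : LW c c' (sc ε₀ C Λ) x₀ z := ⟨n, closed_R2 c c' _ hxn hyn hR⟩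
  rw [L.TT_shift h4 hF₀ h0 n] at h3
  exact (L.YY_eq hF₀ h0 h4 h3).symm

end LF

end Pool.Agent.Y330.F
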