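import Pool.Agent.H66.L.S8.Y330.F.B4

set_option autoImplicit false
set_option linter.unusedSectionVars false

open Filter Topology Set Metric
open scoped InnerProductSpace

namespace Pool.Agent.Y330.F

open Pool.Agent.H789R2.AN Pool.Agent.Y330.G

variable {X : Type*} [MetricSpace X] {E : Type*} [NormedAddCommGroup E] [InnerProductSpace ℝ E]

/-- A smooth map commuting with the contractions and preserving the line field. -/
structure Eqv (c c' : X ≃ₜ X) (e : X → E) (F : X → Submodule ℝ E) (D : X → E →ₗ[ℝ] E)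
    (C : ℝ) (b : X → X) (B : X → E →ₗ[ℝ] E) (M : ℝ) : Prop where
  cont : Continuous b
  cc : ∀ x, b (c x) = c (b x)
  cc' : ∀ x, b (c' x) = c' (b x)
  M_pos : 0 < M
  map : ∀ x, ∀ v ∈ F x, B x v ∈ F (b x)
  lower : ∀ x, ∀ v ∈ F x, ‖v‖ ≤ M * ‖B x v‖
  chain : ∀ x, ∀ v ∈ F x, B (c x) (D x v) = D (b x) (B x v)
  quad : ∀ η > 0, ∃ ρ > 0, ∀ x y, R2 c c' ρ x y → ∀ v ∈ F x,
    ‖e y - e x - v‖ ≤ 2 * C * dist x y ^ 2 → ‖e (b y) - e (b x) - B x v‖ ≤ η * dist x y

namespace LF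

variable {c c' : X ≃ₜ X} {e : X → E} {F : X → Submodule ℝ E} {D : X → E →ₗ[ℝ] E} {ε₀ C Λ : ℝ}
  {b : X → X} {B : X → E →ₗ[ℝ] E} {M : ℝ}

theorem eqv_ne (_L : LF c c' e F D ε₀ C Λ) (Q : Eqv c c' e F D C b B M) {x : X} {u : E}
    (hu : u ∈ F x) (h : u ≠ 0) : B x u ≠ 0 := by
  intro h0
  have := Q.lower x u hu
  rw [h0, norm_zero, mul_zero] at this
  exact h (norm_le_zero_iff.mp this)

theorem W_map [CompactSpace X] (L : LF c c' e F D ε₀ C Λ) (Q : Eqv c c' e F D C b B M) {x y : X}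
    (h : LW c c' (sc ε₀ C Λ) x y) : LW c c' (sc ε₀ C Λ) (b x) (b y) := by
  obtain ⟨δ, hδ, hb⟩ := uc1 Q.cont L.sc_pos
  obtain ⟨n, hn⟩ := L.small h hδ
  have h1 := hn n le_rfl
  refine ⟨n, fun k => ?_, fun k => ?_⟩
  · rw [← comm_it Q.cc n, ← comm_it Q.cc n, ← comm_it Q.cc k, ← comm_it Q.cc k]
    exact hb _ _ (h1.1 k)
  · rw [← comm_it Q.cc n, ← comm_it Q.cc n, ← comm_it Q.cc' k, ← comm_it Q.cc' k]
    exact hb _ _ (h1.2 k)

theorem vec_map (L : LF c c' e F D ε₀ C Λ) (Q : Eqv c c' e F D C b B M) (n : ℕ) {x : X} {u : E}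
    (hu : u ∈ F x) : vec c D n (b x) (B x u) = B (c^[n] x) (vec c D n x u) := by
  induction n with
  | zero => rfl
  | succ n ih =>
    rw [vec_succ, vec_succ, ih, ← comm_it Q.cc n, Function.iterate_succ_apply',
      Q.chain _ _ (L.vec_mem n x hu)]

/-- equivariance of the affine coordinate -/
theorem TT_map [CompactSpace X] (L : LF c c' e F D ε₀ C Λ) (Q : Eqv c c' e F D C b B M) {x y : X}
    (h : LW c c' (sc ε₀ C Λ) x y) {u : E} (hu : u ∈ F x) (h0 : u ≠ 0) :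
    TT c D e (b x) (B x u) (b y) = TT c D e x u y := by
  have h1 := L.conv' h hu h0
  have h2 := L.conv' (L.W_map Q h) (Q.map x u hu) (L.eqv_ne Q hu h0)
  have hM := Q.M_pos
  set T := TT c D e x u y with hT
  have h3 : Tendsto (fun n => Tn c D e n (b x) (B x u) (b y) - Tn c D e n x u y) atTop (𝓝 0) := by
    rw [Metric.tendsto_atTop]
    intro ε hε
    set η := ε / (8 * M * (|T| + 1)) with hη
    have hη0 : 0 < η := by positivity
    obtain ⟨ρ, hρ, hq⟩ := Q.quad η hη0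
    obtain ⟨n₀, hn₀⟩ := L.small h (lt_min hρ L.sc_pos)
    refine ⟨n₀, fun n hn => ?_⟩
    have hR := hn₀ n hn
    have hR1 := hR.mono (min_le_left _ _)
    have hR2 := hR.mono (min_le_right _ _)
    have hvm := L.vec_mem n x hu
    have hvn := L.vec_ne n x hu h0
    have hst := (L.step (hR2.mono L.sc_le) (L.sc_le'' dist_nonneg (hR2.1 0)) hvm hvn).2.2
    have hbd := (L.bounds hR2 hvm hvn).2.1
    rw [L.TT_shift h hu h0 n] at hbd
    have hlow := Q.lower _ _ hvm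
    have hBn := L.eqv_ne Q hvm hvn
    set v := vec c D n x u with hv
    set z := c^[n] x with hz
    set w := c^[n] y with hw
    have e1 : Tn c D e n (b x) (B x u) (b y) = t0 e (b z) (B z v) (b w) := by
      unfold Tn
      rw [L.vec_map Q n hu, ← comm_it Q.cc n, ← comm_it Q.cc n]
    have e2 : Tn c D e n x u y = t0 e z v w := rfl
    have h4 := hq z w hR1 _ ((F z).smul_mem (t0 e z v w) hvm) hst
    rw [map_smul] at h4
    have h5 := (t0_err e (b z) (B z v) hBn (b w) (t0 e z v w)).trans h4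
    have hBp : 0 < ‖B z v‖ := norm_pos_iff.mpr hBn
    rw [dist_zero_right, Real.norm_eq_abs, e1, e2]
    have h6 : |t0 e (b z) (B z v) (b w) - t0 e z v w| * ‖B z v‖ ≤
        (4 * η * M * |T|) * ‖B z v‖ := by
      have h7 : dist z w ≤ 4 * (|T| * (M * ‖B z v‖)) := by
        have : |T| * ‖v‖ ≤ |T| * (M * ‖B z v‖) := mul_le_mul_of_nonneg_left hlow (abs_nonneg _)
        linarith
      calc _ ≤ η * dist z w := h5
        _ ≤ η * (4 * (|T| * (M * ‖B z v‖))) := mul_le_mul_of_nonneg_left h7 hη0.le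
        _ = _ := by ring
    have h8 := le_of_mul_le_mul_right h6 hBp
    have h9 : 4 * η * M * |T| ≤ ε / 2 := by
      have e3 : 4 * η * M * |T| = (ε / 2) * (|T| / (|T| + 1)) := by
        rw [hη]; field_simp; ring
      rw [e3]
      have h10 : |T| / (|T| + 1) ≤ 1 := by
        rw [div_le_one (by positivity)]; linarith
      have : (ε / 2) * (|T| / (|T| + 1)) ≤ (ε / 2) * 1 :=
        mul_le_mul_of_nonneg_left h10 (by linarith)
      linarith
    linarith
  have h4 := h2.sub h1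
  have h5 := tendsto_nhds_unique h3 h4
  linarith

theorem YY_map [CompactSpace X] (L : LF c c' e F D ε₀ C Λ) (Q : Eqv c c' e F D C b B M) {x : X}
    {u : E} (hu : u ∈ F x) (h0 : u ≠ 0) (r : ℝ) :
    YY c c' (sc ε₀ C Λ) D e (b x) (B x u) r = b (YY c c' (sc ε₀ C Λ) D e x u r) := by
  obtain ⟨h1, h2⟩ := L.YY_spec x hu h0 r
  exact L.YY_eq (Q.map x u hu) (L.eqv_ne Q hu h0) (L.W_map Q h1) (by rw [L.TT_map Q h1 hu h0, h2])

theorem YY_smul [CompactSpace X] (L : LF c c' e F D ε₀ C Λ) {x : X}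
    {u : E} (hu : u ∈ F x) (h0 : u ≠ 0) {s : ℝ} (hs : s ≠ 0) (r : ℝ) :
    YY c c' (sc ε₀ C Λ) D e x (s • u) r = YY c c' (sc ε₀ C Λ) D e x u (s * r) := by
  obtain ⟨h1, h2⟩ := L.YY_spec x hu h0 (s * r)
  refine L.YY_eq ((F x).smul_mem s hu) (smul_ne_zero hs h0) h1 ?_
  rw [L.TT_smul h1 hu h0, h2]
  field_simp

end LF

end Pool.Agent.Y330.F
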