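import Pool.Agent.H66.L.S8.Y330.F.C3
import Pool.Agent.H66.L.S8.Y330.F.B5

set_option autoImplicit false
set_option linter.unusedSectionVars false

open Filter Topology Set Metric
open scoped InnerProductSpace

namespace Pool.Agent.Y330.F

open Pool.Agent.H789R2.AN Pool.Agent.Y330.G Pool.Agent.H721R2

variable {X : Type*} [MetricSpace X] {E : Type*} [NormedAddCommGroup E] [InnerProductSpace ℝ E]
  {G : Type*} [AddCommGroup G]

/-- A smooth action, in an ambient space. -/
structure SA (act : G → X ≃ₜ X) (e : X → E) (T : X → Submodule ℝ E) (B : G → X → E →ₗ[ℝ] E) :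
    Prop where
  add : ∀ g h x, act (g + h) x = act g (act h x)
  isom : ∀ x y, dist x y = ‖e x - e y‖
  sm : ∀ g, ∃ C r, SM e T (act g) (B g) C r
  chain : ∀ g h x, ∀ v ∈ T x, B (g + h) x v = B g (act h x) (B h x v)
  one : ∀ x, ∀ v ∈ T x, B 0 x v = v

namespace SA

variable {act : G → X ≃ₜ X} {e : X → E} {T : X → Submodule ℝ E} {B : G → X → E →ₗ[ℝ] E}

theorem zero (A : SA act e T B) (x : X) : act 0 x = x := by
  have h := A.add 0 0 x
  rw [add_zero] at h
  exact ((act 0).injective h).symm

theorem comm (A : SA act e T B) (g h : G) (x : X) : act g (act h x) = act h (act g x) := by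
  rw [← A.add, ← A.add, add_comm]

theorem neg (A : SA act e T B) (g : G) (x : X) : act (-g) x = (act g).symm x := by
  apply (act g).injective
  rw [← A.add, add_neg_cancel, A.zero, Homeomorph.apply_symm_apply]

theorem nsmul (A : SA act e T B) (g : G) (n : ℕ) (x : X) : act (n • g) x = (act g)^[n] x := by
  induction n generalizing x with
  | zero => rw [zero_nsmul]; exact A.zero x
  | succ n ih => rw [succ_nsmul, A.add, ih]; rfl

theorem memT (A : SA act e T B) (g : G) (x : X) {v : E} (hv : v ∈ T x) :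
    B g x v ∈ T (act g x) := by
  obtain ⟨C, r, h⟩ := A.sm g
  exact h.map x v hv

theorem inv (A : SA act e T B) (g : G) (x : X) {v : E} (hv : v ∈ T x) :
    B (-g) (act g x) (B g x v) = v := by
  rw [← A.chain _ _ _ _ hv, neg_add_cancel, A.one _ _ hv]

theorem lower (A : SA act e T B) (g : G) : ∃ M > 0, ∀ x, ∀ v ∈ T x, ‖v‖ ≤ M * ‖B g x v‖ := by
  obtain ⟨C, r, h⟩ := A.sm (-g)
  refine ⟨C, h.C_pos, fun x v hv => ?_⟩
  have h1 := h.bd (act g x) (B g x v) (A.memT g x hv)
  rwa [A.inv g x hv] at h1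

theorem vec_eq (A : SA act e T B) (b : G) (n : ℕ) (x : X) {v : E} (hv : v ∈ T x) :
    vec (act b) (B b) n x v = B (n • b) x v := by
  induction n with
  | zero => rw [zero_nsmul, A.one x v hv]; rfl
  | succ n ih =>
    rw [vec_succ, ih, succ_nsmul', A.chain _ _ _ _ hv, A.nsmul]

/-- each element of the group gives an equivariance datum -/
theorem eqv (A : SA act e T B) {F : X → Submodule ℝ E} (hF : ∀ x, F x ≤ T x)
    (hFi : ∀ g x, ∀ v ∈ F x, B g x v ∈ F (act g x)) {a a' : G} {c c' : X ≃ₜ X}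
    (hc : ∀ x, c x = act a x) (hc' : ∀ x, c' x = act a' x) {D : X → E →ₗ[ℝ] E}
    (hD : ∀ x, ∀ v ∈ T x, D x v = B a x v) {C : ℝ} (hC : 0 < C) (g : G) :
    ∃ M, Eqv c c' e F D C (act g) (B g) M := by
  obtain ⟨M, hM, hlow⟩ := A.lower g
  obtain ⟨Cg, r, h⟩ := A.sm g
  refine ⟨M, {
    cont := (act g).continuous
    cc := fun x => by rw [hc, hc, A.comm]
    cc' := fun x => by rw [hc', hc', A.comm]
    M_pos := hM
    map := fun x v hv => hFi g x v hv
    lower := fun x v hv => hlow x v (hF x hv)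
    chain := fun x v hv => ?_
    quad := fun η hη => ?_ }⟩
  · rw [hD _ _ (hF x hv), hD _ _ (A.memT g x (hF x hv)), hc, ← A.chain _ _ _ _ (hF x hv),
      ← A.chain _ _ _ _ (hF x hv), add_comm]
  · have hCg := h.C_pos
    set K := Cg + Cg * (2 * C + Cg) with hK
    have hK0 : 0 < K := by positivity
    refine ⟨min (r / 2) (η / K), lt_min (by linarith [h.r_pos]) (by positivity), ?_⟩
    intro x y hxy v hv hq
    have hd : dist x y ≤ min (r / 2) (η / K) := hxy.1 0
    have hd1 : dist x y < r := by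
      have := hd.trans (min_le_left _ _)
      linarith [h.r_pos]
    have hd2 : K * dist x y ≤ η := by
      have := hd.trans (min_le_right _ _)
      rw [le_div_iff₀ hK0] at this
      linarith
    obtain ⟨v₀, hv₀, h1, h2⟩ := h.q x y hd1
    have h3 : ‖v₀ - v‖ ≤ (2 * C + Cg) * dist x y ^ 2 := by
      have e1 : v₀ - v = (e y - e x - v) - (e y - e x - v₀) := by abel
      rw [e1]
      refine (norm_sub_le _ _).trans ?_
      linarith
    have h4 := h.bd x (v₀ - v) ((T x).sub_mem hv₀ (hF x hv))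
    have e2 : e (act g y) - e (act g x) - B g x v =
        (e (act g y) - e (act g x) - B g x v₀) + B g x (v₀ - v) := by
      rw [map_sub]; abel
    rw [e2]
    refine (norm_add_le _ _).trans ?_
    have h5 : Cg * ‖v₀ - v‖ ≤ Cg * ((2 * C + Cg) * dist x y ^ 2) :=
      mul_le_mul_of_nonneg_left h3 hCg.le
    have h6 : K * dist x y * dist x y ≤ η * dist x y :=
      mul_le_mul_of_nonneg_right hd2 dist_nonneg
    calc ‖e (act g y) - e (act g x) - B g x v₀‖ + ‖B g x (v₀ - v)‖
        ≤ Cg * dist x y ^ 2 + Cg * ((2 * C + Cg) * dist x y ^ 2) := by linarith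
      _ = K * dist x y * dist x y := by rw [hK]; ring
      _ ≤ _ := h6

end SA

end Pool.Agent.Y330.F
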