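import Pool.Agent.H66.L.S8.Y330.F.C5

set_option autoImplicit false
set_option linter.unusedSectionVars false

open Filter Topology Set Metric
open scoped InnerProductSpace

namespace Pool.Agent.Y330.F

open Pool.Agent.H789R2.AN Pool.Agent.Y330.G Pool.Agent.H721R2

variable {X : Type*} [MetricSpace X] {E : Type*} [NormedAddCommGroup E] [InnerProductSpace ℝ E]
  {G : Type*} [AddCommGroup G]

theorem SA.negH {act : G → X ≃ₜ X} {e : X → E} {T : X → Submodule ℝ E} {B : G → X → E →ₗ[ℝ] E}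
    (A : SA act e T B) (g : G) : act (-g) = (act g).symm := Homeomorph.ext fun x => A.neg g x

theorem SM.congr {e e' : X → E} {T T' : X → Submodule ℝ E} {b b' : X → X}
    {B B' : X → E →ₗ[ℝ] E} {C r : ℝ} (h : SM e T b B C r) (he : e' = e) (hT : ∀ x, T' x = T x)
    (hb : ∀ x, b' x = b x) (hB : ∀ x, ∀ v ∈ T x, B' x v = B x v) : SM e' T' b' B' C r := by
  subst he
  refine ⟨h.C_pos, h.r_pos, ?_, ?_, ?_, ?_⟩
  · intro x v hv
    rw [hT] at hv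
    rw [hT, hB x v hv, hb]
    exact h.map x v hv
  · intro x v hv
    rw [hT] at hv
    rw [hB x v hv]
    exact h.bd x v hv
  · intro x y hxy
    obtain ⟨v, hv, h1, h2⟩ := h.q x y hxy
    refine ⟨v, by rw [hT]; exact hv, h1, ?_⟩
    rw [hB x v hv, hb, hb]
    exact h2
  · intro x y hxy v hv
    rw [hT] at hv
    obtain ⟨w, hw, h1, h2⟩ := h.lip x y hxy v hv
    refine ⟨w, by rw [hT]; exact hw, h1, ?_⟩
    rw [hB x v hv, hB y w hw]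
    exact h2

theorem LF.congrD {c c' : X ≃ₜ X} {e : X → E} {F : X → Submodule ℝ E} {D D₂ : X → E →ₗ[ℝ] E}
    {ε₀ C Λ : ℝ} (L : LF c c' e F D ε₀ C Λ) (h : ∀ x, ∀ v ∈ F x, D₂ x v = D x v) :
    LF c c' e F D₂ ε₀ C Λ where
  isom := L.isom
  comm := L.comm
  pos := L.pos
  C_pos := L.C_pos
  L_pos := L.L_pos
  ctr := L.ctr
  ctr' := L.ctr'
  jt := L.jt
  line := L.line
  clF := L.clF
  map := fun x v hv => by rw [h x v hv]; exact L.map x v hv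
  contr := fun x v hv => by rw [h x v hv]; exact L.contr x v hv
  lower := fun x v hv => by rw [h x v hv]; exact L.lower x v hv
  quad := fun x y hxy => by
    obtain ⟨v, hv, h1, h2⟩ := L.quad x y hxy
    exact ⟨v, hv, h1, by rw [h x v hv]; exact h2⟩
  Dcont := L.Dcont.congr fun p hp => h p.1 p.2 hp
  dir := L.dir

/-- Two hyperbolic elements on the two sides of a wall. -/
structure FD (act : G → X ≃ₜ X) (e : X → E) (T : X → Submodule ℝ E) (B : G → X → E →ₗ[ℝ] E)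
    (S S' : HypSys X E) (a a' : G) (Fm Fp : X → Submodule ℝ E) : Prop where
  sa : SA act e T B
  hg : S.g = act a
  hg' : S'.g = act a'
  he : S.e = e
  he' : S'.e = e
  hT : ∀ x, S.Vs x ⊔ S.Vu x = T x
  hT' : ∀ x, S'.Vs x ⊔ S'.Vu x = T x
  hD : ∀ x, ∀ v ∈ T x, S.D x v = B a x v
  hDi : ∀ x, ∀ v ∈ T x, S.D' x v = B (-a) x v
  hD' : ∀ x, ∀ v ∈ T x, S'.D x v = B a' x v
  hDi' : ∀ x, ∀ v ∈ T x, S'.D' x v = B (-a') x v
  m1 : ∀ x, Fm x ≤ S.Vs x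
  m2 : ∀ x, Fm x ≤ S'.Vu x
  p1 : ∀ x, Fp x ≤ S.Vu x
  p2 : ∀ x, Fp x ≤ S'.Vs x
  s1 : ∀ x, ∀ v ∈ S'.Vu x, ∃ f ∈ Fm x, ∃ w ∈ S.Vu x, v = f + w
  s2 : ∀ x, ∀ v ∈ S'.Vs x, ∃ f ∈ Fp x, ∃ w ∈ S.Vs x, v = f + w
  s3 : ∀ x, ∀ v ∈ S.Vu x, ∃ f ∈ Fp x, ∃ w ∈ S'.Vu x, v = f + w
  s4 : ∀ x, ∀ v ∈ S.Vs x, ∃ f ∈ Fm x, ∃ w ∈ S'.Vs x, v = f + w
  lm : ∀ x, ∃ u ∈ Fm x, u ≠ 0 ∧ ∀ v ∈ Fm x, ∃ r : ℝ, v = r • u
  lp : ∀ x, ∃ u ∈ Fp x, u ≠ 0 ∧ ∀ v ∈ Fp x, ∃ r : ℝ, v = r • u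
  im : ∀ g x, ∀ v ∈ Fm x, B g x v ∈ Fm (act g x)
  ip : ∀ g x, ∀ v ∈ Fp x, B g x v ∈ Fp (act g x)

namespace FD

variable {act : G → X ≃ₜ X} {e : X → E} {T : X → Submodule ℝ E} {B : G → X → E →ₗ[ℝ] E}
  {S S' : HypSys X E} {a a' : G} {Fm Fp : X → Submodule ℝ E}

/-- the other side of the wall -/
theorem symm (H : FD act e T B S S' a a' Fm Fp) : FD act e T B S' S a' a Fp Fm where
  sa := H.sa
  hg := H.hg'
  hg' := H.hg
  he := H.he'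
  he' := H.he
  hT := H.hT'
  hT' := H.hT
  hD := H.hD'
  hDi := H.hDi'
  hD' := H.hD
  hDi' := H.hDi
  m1 := H.p2
  m2 := H.p1
  p1 := H.m2
  p2 := H.m1
  s1 := H.s3
  s2 := H.s4
  s3 := H.s1
  s4 := H.s2
  lm := H.lp
  lp := H.lm
  im := H.ip
  ip := H.im

/-- the inverse maps -/
theorem inv (H : FD act e T B S S' a a' Fm Fp) :
    FD act e T B S.symm S'.symm (-a) (-a') Fp Fm where
  sa := H.sa
  hg := by rw [H.sa.negH, ← H.hg]; rfl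
  hg' := by rw [H.sa.negH, ← H.hg']; rfl
  he := H.he
  he' := H.he'
  hT := fun x => by rw [← H.hT x, sup_comm]; rfl
  hT' := fun x => by rw [← H.hT' x, sup_comm]; rfl
  hD := H.hDi
  hDi := fun x v hv => by rw [neg_neg]; exact H.hD x v hv
  hD' := H.hDi'
  hDi' := fun x v hv => by rw [neg_neg]; exact H.hD' x v hv
  m1 := H.p1
  m2 := H.p2
  p1 := H.m1
  p2 := H.m2
  s1 := H.s2
  s2 := H.s1
  s3 := H.s4
  s4 := H.s3
  lm := H.lp
  lp := H.lm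
  im := H.ip
  ip := H.im

theorem mT (H : FD act e T B S S' a a' Fm Fp) (x : X) : Fm x ≤ T x :=
  (H.m1 x).trans (le_sup_left.trans (H.hT x).le)

theorem pT (H : FD act e T B S S' a a' Fm Fp) (x : X) : Fp x ≤ T x := H.symm.mT x

theorem smS (H : FD act e T B S S' a a' Fm Fp) :
    ∃ C r, SM S.e (fun x => S.Vs x ⊔ S.Vu x) S.g S.D C r := by
  obtain ⟨C, r, h⟩ := H.sa.sm a
  exact ⟨C, r, h.congr H.he H.hT (fun x => by rw [H.hg]) H.hD⟩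

theorem lfm [CompactSpace X] [FiniteDimensional ℝ E] (H : FD act e T B S S' a a' Fm Fp) :
    ∃ ε₀ C Λ, LF (act a) (act a').symm e Fm (B a) ε₀ C Λ := by
  obtain ⟨C, r, h⟩ := H.smS
  obtain ⟨C', r', h'⟩ := H.symm.inv.smS
  have P : LPair S S'.symm Fm C r C' r' := {
    he := H.he'.trans H.he.symm
    comm := fun x => by
      show S'.g.symm (S.g x) = S.g (S'.g.symm x)
      rw [H.hg, H.hg', ← H.sa.neg, ← H.sa.neg, H.sa.comm]
    sm := h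
    sm' := h'
    fs := H.m1
    fs' := H.m2
    split := H.s1
    line := H.lm
    map := fun x v hv => by
      rw [H.hD x v (H.mT x hv), H.hg]
      exact H.im a x v hv }
  obtain ⟨ε₀, C₀, Λ, L⟩ := mk_LF P
  have e1 : (S'.symm).g = (act a').symm := by rw [← H.hg']; rfl
  rw [e1, H.hg, H.he] at L
  exact ⟨ε₀, C₀, Λ, L.congrD fun x v hv => (H.hD x v (H.mT x hv)).symm⟩

theorem lfp [CompactSpace X] [FiniteDimensional ℝ E] (H : FD act e T B S S' a a' Fm Fp) :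
    ∃ ε₀ C Λ, LF (act a).symm (act a') e Fp (B (-a)) ε₀ C Λ := by
  obtain ⟨ε₀, C, Λ, L⟩ := H.inv.lfm
  rw [H.sa.negH, H.sa.negH] at L
  exact ⟨ε₀, C, Λ, L⟩

theorem ctrS [CompactSpace X] (H : FD act e T B S S' a a' Fm Fp) : ∃ ε > 0, Ctr (act a) ε := by
  obtain ⟨ε, hε, h⟩ := sctr S
  rw [H.hg] at h
  exact ⟨ε, hε, h⟩

/-- common contraction scale -/
theorem ctr4 [CompactSpace X] (H : FD act e T B S S' a a' Fm Fp) : ∃ ε > 0,
    Ctr (act a) ε ∧ Ctr (act a).symm ε ∧ Ctr (act a') ε ∧ Ctr (act a').symm ε := by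
  obtain ⟨ε1, h1, c1⟩ := H.ctrS
  obtain ⟨ε2, h2, c2⟩ := H.inv.ctrS
  obtain ⟨ε3, h3, c3⟩ := H.symm.ctrS
  obtain ⟨ε4, h4, c4⟩ := H.symm.inv.ctrS
  rw [H.sa.negH] at c2 c4
  exact ⟨min (min ε1 ε2) (min ε3 ε4), lt_min (lt_min h1 h2) (lt_min h3 h4),
    c1.mono ((min_le_left _ _).trans (min_le_left _ _)),
    c2.mono ((min_le_left _ _).trans (min_le_right _ _)),
    c3.mono ((min_le_right _ _).trans (min_le_left _ _)),
    c4.mono ((min_le_right _ _).trans (min_le_right _ _))⟩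

theorem lprS [CompactSpace X] (H : FD act e T B S S' a a' Fm Fp) : Lpr (act a) := by
  have := lpr S
  rwa [H.hg] at this

theorem exLP [CompactSpace X] (H : FD act e T B S S' a a' Fm Fp) : ∃ c, LP (act a) c := by
  obtain ⟨c, hc⟩ := exists_LP S
  rw [H.hg] at hc
  exact ⟨c, hc⟩

/-- Hölder continuity of the line field. -/
theorem holderP (H : FD act e T B S S' a a' Fm Fp) :
    ∃ ρ > 0, ∃ M > 0, ∃ θ : ℝ, 1 / 2 ≤ θ ∧ θ < 1 ∧ ∀ (k : ℕ) (x y : X),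
      dist x y ≤ ρ * (1 / 2) ^ k → ∀ v ∈ Fp x, ∃ f ∈ Fp y, ‖v - f‖ ≤ M * θ ^ k * ‖v‖ := by
  obtain ⟨C1, r1, sm1⟩ := H.inv.smS
  obtain ⟨C2, r2, sm2⟩ := H.symm.smS
  obtain ⟨ρ1, hρ1, M1, hM1, θ1, ht1, ht1', h1⟩ := holderS S.symm sm1
  obtain ⟨ρ2, hρ2, M2, hM2, θ2, ht2, ht2', h2⟩ := holderS S' sm2
  have hK := S.one_le_K
  refine ⟨min ρ1 ρ2, lt_min hρ1 hρ2, M2 + S.K * (M1 + M2), by positivity, max θ1 θ2,
    ht1.trans (le_max_left _ _), max_lt ht1' ht2', fun k x y hxy v hv => ?_⟩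
  set θ := max θ1 θ2 with hθ
  have hθ0 : 0 ≤ θ := by linarith [ht1.trans (le_max_left θ1 θ2)]
  have hpk : (0 : ℝ) ≤ (1 / 2) ^ k := by positivity
  obtain ⟨s, hs, hs1⟩ := h1 θ (le_max_left _ _) (max_lt ht1' ht2') k x y
    (hxy.trans (mul_le_mul_of_nonneg_right (min_le_left _ _) hpk)) v (H.p1 x hv)
  obtain ⟨s', hs', hs2⟩ := h2 θ (le_max_right _ _) (max_lt ht1' ht2') k x y
    (hxy.trans (mul_le_mul_of_nonneg_right (min_le_right _ _) hpk)) v (H.p2 x hv)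
  obtain ⟨f, hf, w, hw, hfw⟩ := H.s2 y s' hs'
  refine ⟨f, hf, ?_⟩
  have hsu : s ∈ S.Vu y := hs
  obtain ⟨h3, -⟩ := S.angle y (-w) (Submodule.neg_mem _ hw) (s - f)
    (Submodule.sub_mem _ hsu (H.p1 y hf))
  have e1 : -w + (s - f) = (v - s') - (v - s) := by rw [hfw]; abel
  rw [norm_neg, e1] at h3
  have h4 := norm_sub_le (v - s') (v - s)
  have e2 : v - f = (v - s') + w := by rw [hfw]; abel
  rw [e2]
  refine (norm_add_le _ _).trans ?_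
  have h5 : S.K * ‖v - s' - (v - s)‖ ≤ S.K * (M2 * θ ^ k * ‖v‖ + M1 * θ ^ k * ‖v‖) :=
    mul_le_mul_of_nonneg_left (by linarith) (by linarith)
  calc ‖v - s'‖ + ‖w‖ ≤ M2 * θ ^ k * ‖v‖ + S.K * (M2 * θ ^ k * ‖v‖ + M1 * θ ^ k * ‖v‖) := by
        linarith
    _ = _ := by ring

end FD

end Pool.Agent.Y330.F
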