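import Pool.Agent.H66.L.S8.H789R2.AN.Comb
import Pool.Agent.H66.L.S8.H789R2.AN.TNS

set_option autoImplicit false
set_option linter.unusedSectionVars false

open Filter Topology Set

namespace Pool.Agent.Y330.F

open Pool.Agent.H789R2.AN

variable {G J : Type*} [AddCommGroup G] [Finite J]

/-- Two elements separated in opposite directions by two characters which are not negatively
proportional have an intermediate element. -/
theorem between' (χ : J → G →+ ℝ) (a b : G)
    (ha : ∀ l, χ l a ≠ 0) (hb : ∀ l, χ l b ≠ 0) (i j : J)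
    (hTNS : ∀ c : ℝ, 0 < c → ∃ a, χ i a ≠ -c * χ j a) (hia : 0 < χ i a) (hib : χ i b < 0)
    (hja : χ j a < 0) :
    ∃ c : G, (∀ l, χ l c ≠ 0) ∧ (∀ l, 0 < χ l a * χ l b → 0 < χ l a * χ l c) ∧
      0 < χ i c * χ j c := by
  set m := -χ i b with hm
  set n := χ i a with hn
  have hm0 : 0 < m := by rw [hm]; linarith
  set w : J → ℝ := fun l => m * χ l a + n * χ l b with hw
  have hwi : w i = 0 := by
    show -χ i b * χ i a + χ i a * χ i b = 0
    ring
  -- sign of w for common indices
  have hwl : ∀ l, 0 < χ l a * χ l b → 0 < χ l a * w l := by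
    intro l hl
    show 0 < χ l a * (m * χ l a + n * χ l b)
    have h1 : 0 < χ l a ^ 2 := by
      have := ha l
      positivity
    have h2 : 0 < n * (χ l a * χ l b) := mul_pos hia hl
    nlinarith
  have hwne : ∀ l, 0 < χ l a * χ l b → w l ≠ 0 := fun l hl h => by
    have := hwl l hl
    rw [h, mul_zero] at this
    exact lt_irrefl _ this
  -- reduction to a real combination
  suffices h : ∃ (e : G) (α β γ : ℝ), (∀ l, α * χ l a + β * χ l b + γ * χ l e ≠ 0) ∧
      (∀ l, 0 < χ l a * χ l b → 0 < χ l a * (α * χ l a + β * χ l b + γ * χ l e)) ∧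
      0 < (α * χ i a + β * χ i b + γ * χ i e) * (α * χ j a + β * χ j b + γ * χ j e) by
    obtain ⟨e, α, β, γ, h1, h2, h3⟩ := h
    obtain ⟨c, hc⟩ := approx χ a b e α β γ h1
    refine ⟨c, fun l hl => ?_, fun l hl => ?_, ?_⟩
    · have := hc l
      rw [hl, mul_zero] at this
      exact lt_irrefl _ this
    · exact pos_of_mul_pos_mul_pos (h2 l hl) (hc l)
    · have h4 := hc i
      have h5 := hc j
      have h6 : 0 < ((α * χ i a + β * χ i b + γ * χ i e) * (α * χ j a + β * χ j b + γ * χ j e)) *
          (χ i c * χ j c) := by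
        have := mul_pos h4 h5
        nlinarith
      exact pos_of_mul_pos_left' h3 h6
  by_cases hwj : w j = 0
  · -- use the hypothesis
    have hja' : 0 < -χ j a := by linarith
    obtain ⟨e, he⟩ := hTNS (n / (-χ j a)) (div_pos hia hja')
    set t := n / (-χ j a) with ht
    have ht0 : 0 < t := div_pos hia hja'
    have htj : t * χ j a = -n := by
      rw [ht, div_mul_eq_mul_div, div_eq_iff (ne_of_gt hja')]; ring
    -- choose σ
    obtain ⟨σ, hσ⟩ : ∃ σ : ℝ, 0 < (χ i e + σ * χ i a) * (χ j e + σ * χ j a) := by
      refine ⟨(-χ i e + t * χ j e) / (2 * n), ?_⟩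
      have e1 : χ i e + (-χ i e + t * χ j e) / (2 * n) * χ i a = (χ i e + t * χ j e) / 2 := by
        have : χ i a = n := rfl
        rw [this]
        have : (-χ i e + t * χ j e) / (2 * n) * n = (-χ i e + t * χ j e) / 2 := by field_simp
        rw [this]; ring
      have e2 : t * (χ j e + (-χ i e + t * χ j e) / (2 * n) * χ j a) =
          (χ i e + t * χ j e) / 2 := by
        have h1 : t * (χ j e + (-χ i e + t * χ j e) / (2 * n) * χ j a) =
          t * χ j e + (-χ i e + t * χ j e) / (2 * n) * (t * χ j a) := by ring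
        rw [h1, htj]
        have : (-χ i e + t * χ j e) / (2 * n) * (-n) = -((-χ i e + t * χ j e) / 2) := by
          field_simp
        rw [this]; ring
      rw [e1]
      have h3 : χ i e + t * χ j e ≠ 0 := fun h => he (by linarith)
      have h4 : 0 < ((χ i e + t * χ j e) / 2) * (t * (χ j e + (-χ i e + t * χ j e) / (2 * n) *
          χ j a)) := by
        rw [e2]
        have : (χ i e + t * χ j e) / 2 ≠ 0 := by
          intro h; apply h3; linarith
        exact mul_self_pos.mpr this
      have h5 : 0 < t * ((χ i e + t * χ j e) / 2 * (χ j e + (-χ i e + t * χ j e) / (2 * n) *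
          χ j a)) := by linarith
      exact pos_of_mul_pos_left' ht0 h5
    obtain ⟨s', hs'0, hs'⟩ := perturb (fun l => χ l e + σ * χ l a) (fun l => χ l a) ha
    obtain ⟨s, hs0, hs⟩ := perturb w (fun l => (χ l e + σ * χ l a) + s' * χ l a)
      (fun l => (hs' l).1)
    have hval : ∀ l, (m + s * (σ + s')) * χ l a + n * χ l b + s * χ l e =
        w l + s * ((χ l e + σ * χ l a) + s' * χ l a) := by
      intro l
      show _ = m * χ l a + n * χ l b + _
      ring
    refine ⟨e, m + s * (σ + s'), n, s, ?_, ?_, ?_⟩
    · intro l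
      rw [hval]
      exact (hs l).1
    · intro l hl
      rw [hval]
      have h1 := (hs l).2.1 (hwne l hl)
      exact pos_of_mul_pos_mul_pos (hwl l hl) h1
    · rw [hval, hval]
      have h1 := (hs i).2.2 hwi
      have h2 := (hs j).2.2 hwj
      have hne1 : χ i e + σ * χ i a ≠ 0 := fun h => by
        rw [h, zero_mul] at hσ; exact lt_irrefl _ hσ
      have hne2 : χ j e + σ * χ j a ≠ 0 := fun h => by
        rw [h, mul_zero] at hσ; exact lt_irrefl _ hσ
      have h3 := (hs' i).2.1 hne1
      have h4 := (hs' j).2.1 hne2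
      have h5 := pos_of_mul_pos_mul_pos h3 h1
      have h6 := pos_of_mul_pos_mul_pos h4 h2
      have h7 := mul_pos h5 h6
      have h8 : 0 < (χ i e + σ * χ i a) * (χ j e + σ * χ j a) *
          ((w i + s * (χ i e + σ * χ i a + s' * χ i a)) *
          (w j + s * (χ j e + σ * χ j a + s' * χ j a))) := by nlinarith
      exact pos_of_mul_pos_left' hσ h8
  · rcases lt_or_gt_of_ne hwj with hneg | hpos
    · -- w j < 0 : move towards b
      obtain ⟨s, hs0, hs⟩ := perturb w (fun l => χ l b) hb
      have hval : ∀ l, m * χ l a + (n + s) * χ l b + 0 * χ l a = w l + s * χ l b := by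
        intro l
        show _ = m * χ l a + n * χ l b + _
        ring
      refine ⟨a, m, n + s, 0, ?_, ?_, ?_⟩
      · intro l; rw [hval]; exact (hs l).1
      · intro l hl
        rw [hval]
        exact pos_of_mul_pos_mul_pos (hwl l hl) ((hs l).2.1 (hwne l hl))
      · rw [hval, hval]
        have h1 := (hs i).2.2 hwi
        have h2 := (hs j).2.1 hwj
        have h3 : w i + s * χ i b < 0 := by
          by_contra h; push Not at h; nlinarith
        have h4 : w j + s * χ j b < 0 := by
          by_contra h; push Not at h; nlinarith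
        exact mul_pos_of_neg_of_neg h3 h4
    · obtain ⟨s, hs0, hs⟩ := perturb w (fun l => χ l a) ha
      have hval : ∀ l, (m + s) * χ l a + n * χ l b + 0 * χ l a = w l + s * χ l a := by
        intro l
        show _ = m * χ l a + n * χ l b + _
        ring
      refine ⟨a, m + s, n, 0, ?_, ?_, ?_⟩
      · intro l; rw [hval]; exact (hs l).1
      · intro l hl
        rw [hval]
        exact pos_of_mul_pos_mul_pos (hwl l hl) ((hs l).2.1 (hwne l hl))
      · rw [hval, hval]
        have h1 := (hs i).2.2 hwi
        have h2 := (hs j).2.1 hwj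
        have h3 : 0 < w i + s * χ i a := by
          by_contra h; push Not at h; nlinarith
        have h4 : 0 < w j + s * χ j a := by
          by_contra h; push Not at h; nlinarith
        exact mul_pos h3 h4


/-- Nested step. -/
def Nest (χ : J → G →+ ℝ) (a b : G) : Prop := ∀ l, 0 < χ l a → 0 < χ l b

/-- Crossing the wall of exactly one pair of negatively proportional characters. -/
def Flip (χ : J → G →+ ℝ) (a b : G) : Prop :=
  ∃ i j, (∃ c : ℝ, 0 < c ∧ ∀ g, χ i g = -c * χ j g) ∧ 0 < χ i a ∧ χ i b < 0 ∧ χ j a < 0 ∧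
    0 < χ j b ∧ ∀ l, l ≠ i → l ≠ j → (0 < χ l a ↔ 0 < χ l b)

/-- Any two regular elements are linked by nested steps and flips. -/
theorem reg_conn' (χ : J → G →+ ℝ)
    (hpair : ∀ i j, ∀ c : ℝ, 0 < c → (∀ g, χ i g = -c * χ j g) →
      ∀ k, ∀ c' : ℝ, 0 < c' → (∀ g, χ k g = c' * χ i g) → k = i) :
    ∀ a b : {a : G // ∀ l, χ l a ≠ 0},
      Relation.EqvGen (fun a b : {a : G // ∀ l, χ l a ≠ 0} => Nest χ a.1 b.1 ∨ Flip χ a.1 b.1)
        a b := by
  have key : ∀ n : ℕ, ∀ a b : {a : G // ∀ l, χ l a ≠ 0},
      {l | χ l a.1 * χ l b.1 < 0}.ncard ≤ n →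
      Relation.EqvGen (fun a b : {a : G // ∀ l, χ l a ≠ 0} => Nest χ a.1 b.1 ∨ Flip χ a.1 b.1)
        a b := by
    intro n
    induction n with
    | zero =>
      intro a b hab
      have h1 : {l | χ l a.1 * χ l b.1 < 0} = ∅ :=
        (Set.ncard_eq_zero (Set.toFinite _)).mp (Nat.le_zero.mp hab)
      apply Relation.EqvGen.rel
      left
      intro l hl
      by_contra h
      have h2 : χ l b.1 < 0 := lt_of_le_of_ne (not_lt.mp h) (b.2 l)
      have h3 : l ∈ {l | χ l a.1 * χ l b.1 < 0} := mul_neg_of_pos_of_neg hl h2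
      rw [h1] at h3
      exact h3
    | succ n ih =>
      intro a b hab
      by_cases h1 : ∀ l, 0 < χ l a.1 → 0 < χ l b.1
      · exact Relation.EqvGen.rel _ _ (Or.inl h1)
      by_cases h2 : ∀ l, 0 < χ l b.1 → 0 < χ l a.1
      · exact Relation.EqvGen.symm _ _ (Relation.EqvGen.rel _ _ (Or.inl h2))
      by_cases h0 : ∃ i j, 0 < χ i a.1 ∧ χ i b.1 < 0 ∧ χ j a.1 < 0 ∧ 0 < χ j b.1 ∧
          ∀ c : ℝ, 0 < c → ∃ g, χ i g ≠ -c * χ j g
      · obtain ⟨i, j, hia, hib', hja', hjb, hTNS⟩ := h0
        obtain ⟨c, hc1, hc2, hc3⟩ := between' χ a.1 b.1 a.2 b.2 i j hTNS hia hib' hja'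
        have hiD : i ∈ {l | χ l a.1 * χ l b.1 < 0} := mul_neg_of_pos_of_neg hia hib'
        have hjD : j ∈ {l | χ l a.1 * χ l b.1 < 0} := mul_neg_of_neg_of_pos hja' hjb
        have hsub1 : {l | χ l a.1 * χ l c < 0} ⊆ {l | χ l a.1 * χ l b.1 < 0} := by
          intro l hl
          have hl' : χ l a.1 * χ l c < 0 := hl
          by_contra h
          have h' : ¬ χ l a.1 * χ l b.1 < 0 := h
          have h3 : 0 < χ l a.1 * χ l b.1 :=
            lt_of_le_of_ne (not_lt.mp h') (mul_ne_zero (a.2 l) (b.2 l)).symm
          have h4 := hc2 l h3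
          linarith
        have hsub2 : {l | χ l c * χ l b.1 < 0} ⊆ {l | χ l a.1 * χ l b.1 < 0} := by
          intro l hl
          have hl' : χ l c * χ l b.1 < 0 := hl
          by_contra h
          have h' : ¬ χ l a.1 * χ l b.1 < 0 := h
          have h3 : 0 < χ l a.1 * χ l b.1 :=
            lt_of_le_of_ne (not_lt.mp h') (mul_ne_zero (a.2 l) (b.2 l)).symm
          have h4 := hc2 l h3
          have h5 : 0 < χ l c * χ l b.1 :=
            pos_of_mul_pos_mul_pos (y := χ l a.1) (by rwa [mul_comm] at h4) h3
          linarith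
        have hss : {l | χ l a.1 * χ l c < 0} ⊂ {l | χ l a.1 * χ l b.1 < 0} ∧
            {l | χ l c * χ l b.1 < 0} ⊂ {l | χ l a.1 * χ l b.1 < 0} := by
          rcases lt_or_gt_of_ne (hc1 i) with hneg | hpos
          · have hjc : χ j c < 0 := by
              by_contra h; push Not at h; nlinarith
            constructor
            · refine (ssubset_iff_of_subset hsub1).mpr ⟨j, hjD, fun h => ?_⟩
              have h' : χ j a.1 * χ j c < 0 := h
              have := mul_pos_of_neg_of_neg hja' hjc
              linarith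
            · refine (ssubset_iff_of_subset hsub2).mpr ⟨i, hiD, fun h => ?_⟩
              have h' : χ i c * χ i b.1 < 0 := h
              have := mul_pos_of_neg_of_neg hneg hib'
              linarith
          · have hjc : 0 < χ j c := by
              by_contra h; push Not at h; nlinarith
            constructor
            · refine (ssubset_iff_of_subset hsub1).mpr ⟨i, hiD, fun h => ?_⟩
              have h' : χ i a.1 * χ i c < 0 := h
              have := mul_pos hia hpos
              linarith
            · refine (ssubset_iff_of_subset hsub2).mpr ⟨j, hjD, fun h => ?_⟩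
              have h' : χ j c * χ j b.1 < 0 := h
              have := mul_pos hjc hjb
              linarith
        have hl1 := Set.ncard_lt_ncard hss.1 (Set.toFinite _)
        have hl2 := Set.ncard_lt_ncard hss.2 (Set.toFinite _)
        exact Relation.EqvGen.trans _ ⟨c, hc1⟩ _ (ih a ⟨c, hc1⟩ (by
          show {l | χ l a.1 * χ l c < 0}.ncard ≤ n
          omega)) (ih ⟨c, hc1⟩ b (by
          show {l | χ l c * χ l b.1 < 0}.ncard ≤ n
          omega))
      · push Not at h0 h1 h2
        obtain ⟨i, hia, hib⟩ := h1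
        obtain ⟨j, hjb, hja⟩ := h2
        have hib' : χ i b.1 < 0 := lt_of_le_of_ne hib (b.2 i)
        have hja' : χ j a.1 < 0 := lt_of_le_of_ne hja (a.2 j)
        obtain ⟨c, hc, hcg⟩ := h0 i j hia hib' hja' hjb
        apply Relation.EqvGen.rel
        right
        refine ⟨i, j, ⟨c, hc, hcg⟩, hia, hib', hja', hjb, fun l hli hlj => ⟨fun hl => ?_,
          fun hl => ?_⟩⟩
        · by_contra h
          have hlb : χ l b.1 < 0 := lt_of_le_of_ne (not_lt.mp h) (b.2 l)
          obtain ⟨c', hc', hcg'⟩ := h0 l j hl hlb hja' hjb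
          apply hli
          refine hpair i j c hc hcg l (c' / c) (div_pos hc' hc) fun g => ?_
          rw [hcg', hcg]
          field_simp
        · by_contra h
          have hla : χ l a.1 < 0 := lt_of_le_of_ne (not_lt.mp h) (a.2 l)
          obtain ⟨c', hc', hcg'⟩ := h0 i l hia hib' hla hl
          apply hlj
          refine hpair j i (1 / c) (by positivity) (fun g => ?_) l (c / c') (div_pos hc hc')
            fun g => ?_
          · rw [hcg]
            field_simp
          · have e1 := hcg g
            have e2 := hcg' g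
            have e3 : c * χ j g = c' * χ l g := by linarith
            field_simp
            linarith
  intro a b
  exact key _ a b le_rfl

end Pool.Agent.Y330.F
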