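import Pool.Agent.H66.L.S8.Y330.F.D1

set_option autoImplicit false
set_option linter.unusedSectionVars false

open Filter Topology Set Metric
open scoped InnerProductSpace

namespace Pool.Agent.Y330.F

open Pool.Agent.H789R2.AN Pool.Agent.Y330.G Pool.Agent.H721R2

section alg

variable {G : Type*} [AddCommGroup G]

/-- Two characters with the same signs on regular elements are positively proportional. -/
theorem prop_lem {J : Type*} [Finite J] (χ : J → G →+ ℝ) (f τ : G →+ ℝ) (b₀ : G)
    (hb₀ : ∀ l, χ l b₀ ≠ 0) (hf : 0 < f b₀)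
    (h1 : ∀ b, (∀ l, χ l b ≠ 0) → 0 < f b → 0 < τ b) : ∃ κ > 0, ∀ g, τ g = κ * f g := by
  have h2 : ∀ b, (∀ l, χ l b ≠ 0) → f b < 0 → τ b < 0 := by
    intro b hb hfb
    have h3 := h1 (-b) (fun l => by rw [map_neg]; exact neg_ne_zero.mpr (hb l))
      (by rw [map_neg]; linarith)
    rw [map_neg] at h3
    linarith
  have hτ := h1 b₀ hb₀ hf
  have key : ∀ g, ¬ (τ b₀ / f b₀ * f g < τ g) := by
    intro g hlt
    have hlt' : τ b₀ * f g < τ g * f b₀ := by
      rw [div_mul_eq_mul_div, div_lt_iff₀ hf] at hlt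
      exact hlt
    have hI : -(τ g / τ b₀) < -(f g / f b₀) := by
      rw [neg_lt_neg_iff, div_lt_div_iff₀ hf hτ]
      linarith
    have hfin : (range fun l => -(χ l g / χ l b₀)).Finite := finite_range _
    obtain ⟨q, hq⟩ := (Rat.denseRange_cast (𝕜 := ℝ)).exists_mem_open
      (isOpen_Ioo.sdiff hfin.isClosed) ((Ioo_infinite hI).diff hfin).nonempty
    have hden : (0 : ℝ) < q.den := by exact_mod_cast q.den_pos
    have hqd : (q.num : ℝ) = (q : ℝ) * q.den := by exact_mod_cast (Rat.mul_den_eq_num q).symm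
    have hval : ∀ φ : G →+ ℝ, φ (q.den • g + q.num • b₀) = q.den * (φ g + q * φ b₀) := by
      intro φ
      rw [map_add, map_nsmul, map_zsmul, nsmul_eq_mul, zsmul_eq_mul, hqd]
      ring
    have hreg : ∀ l, χ l (q.den • g + q.num • b₀) ≠ 0 := by
      intro l h0
      rw [hval] at h0
      have h3 : χ l g + q * χ l b₀ = 0 := by
        rcases mul_eq_zero.mp h0 with h | h
        · exact absurd h hden.ne'
        · exact h
      apply hq.2
      refine ⟨l, ?_⟩
      show -(χ l g / χ l b₀) = (q : ℝ)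
      have := hb₀ l
      field_simp
      linarith
    have hf1 : f (q.den • g + q.num • b₀) < 0 := by
      rw [hval]
      apply mul_neg_of_pos_of_neg hden
      have h3 : (q : ℝ) < -(f g / f b₀) := hq.1.2
      have h4 : (q : ℝ) * f b₀ < -(f g / f b₀) * f b₀ := mul_lt_mul_of_pos_right h3 hf
      have h5 : -(f g / f b₀) * f b₀ = - f g := by field_simp
      linarith
    have hτ1 : 0 < τ (q.den • g + q.num • b₀) := by
      rw [hval]
      apply mul_pos hden
      have h3 : -(τ g / τ b₀) < (q : ℝ) := hq.1.1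
      have h4 : -(τ g / τ b₀) * τ b₀ < (q : ℝ) * τ b₀ := mul_lt_mul_of_pos_right h3 hτ
      have h5 : -(τ g / τ b₀) * τ b₀ = - τ g := by field_simp
      linarith
    have := h2 _ hreg hf1
    linarith
  refine ⟨τ b₀ / f b₀, div_pos hτ hf, fun g => le_antisymm (not_lt.mp (key g)) ?_⟩
  have h3 := not_lt.mp (key (-g))
  rw [map_neg, map_neg] at h3
  linarith

end alg

variable {X : Type*} [MetricSpace X] {E : Type*} [NormedAddCommGroup E] [InnerProductSpace ℝ E]
  {G : Type*} [AddCommGroup G]

/-- Multipliers at a point with finite orbit. -/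
theorem exists_mult {act : G → X ≃ₜ X} {e : X → E} {T : X → Submodule ℝ E}
    {B : G → X → E →ₗ[ℝ] E} (A : SA act e T B) {F : X → Submodule ℝ E} (hF : ∀ x, F x ≤ T x)
    (hl : ∀ x, ∃ u ∈ F x, u ≠ 0 ∧ ∀ v ∈ F x, ∃ r : ℝ, v = r • u)
    (hi : ∀ g x, ∀ v ∈ F x, B g x v ∈ F (act g x)) {p : X} {N₀ : ℕ}
    (hp : ∀ g, act (N₀ • g) p = p) :
    ∃ τ : G →+ ℝ, ∀ g, ∀ u ∈ F p, B ((2 * N₀) • g) p u = Real.exp (-τ g) • u := by
  obtain ⟨u₀, hu₀, hne, hl⟩ := hl p
  have hm : ∀ g, ∃ m : ℝ, B (N₀ • g) p u₀ = m • u₀ := by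
    intro g
    apply hl
    have := hi (N₀ • g) p u₀ hu₀
    rwa [hp] at this
  choose m hm using hm
  have hm0 : ∀ g, m g ≠ 0 := by
    intro g h0
    have h1 := A.inv (N₀ • g) p (hF p hu₀)
    rw [hm, h0, zero_smul, map_zero] at h1
    exact hne h1.symm
  have hc : ∀ r s : ℝ, r • u₀ = s • u₀ → r = s := by
    intro r s h
    have h1 : (r - s) • u₀ = 0 := by rw [sub_smul, h, sub_self]
    rcases smul_eq_zero.mp h1 with h | h
    · linarith
    · exact absurd h hne
  have hch : ∀ g h, B (N₀ • g + N₀ • h) p u₀ = (m h * m g) • u₀ := by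
    intro g h
    rw [A.chain _ _ _ _ (hF p hu₀), hm, hp, map_smul, hm, smul_smul]
  have hmul : ∀ g h, m (g + h) = m g * m h := by
    intro g h
    apply hc
    rw [← hm, smul_add, hch, mul_comm]
  let τ : G →+ ℝ := AddMonoidHom.mk' (fun g => -Real.log (m g ^ 2)) (by
    intro g h
    show -Real.log (m (g + h) ^ 2) = -Real.log (m g ^ 2) + -Real.log (m h ^ 2)
    rw [hmul, mul_pow, Real.log_mul (pow_ne_zero 2 (hm0 g)) (pow_ne_zero 2 (hm0 h))]
    ring)
  refine ⟨τ, fun g u hu => ?_⟩
  obtain ⟨r, rfl⟩ := hl u hu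
  have h1 : Real.exp (-τ g) = m g * m g := by
    show Real.exp (- -Real.log (m g ^ 2)) = m g * m g
    rw [neg_neg, Real.exp_log (by have := hm0 g; positivity)]
    ring
  rw [map_smul, two_mul, add_smul, hch, h1, smul_comm]

namespace FD

variable {act : G → X ≃ₜ X} {e : X → E} {T : X → Submodule ℝ E} {B : G → X → E →ₗ[ℝ] E}
  {S S' : HypSys X E} {a a' : G} {Fm Fp : X → Submodule ℝ E}

/-- finitely many periodic points of a given period -/
theorem per_finite [CompactSpace X] (H : FD act e T B S S' a a' Fm Fp) {q : ℕ} (hq : 1 ≤ q) :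
    {x : X | (act a)^[q] x = x}.Finite := by
  obtain ⟨ε, hε, c1, c2, -, -⟩ := H.ctr4
  set g := act a with hg
  have hcont : Continuous fun x : X => fun k : Fin q => g^[(k : ℕ)] x :=
    continuous_pi fun k => g.continuous.iterate k
  obtain ⟨δ, hδ, huc⟩ := Metric.uniformContinuous_iff.mp
    (CompactSpace.uniformContinuous_of_continuous hcont) ε hε
  have hper : ∀ x : X, g^[q] x = x → ∀ n : ℕ, g^[n] x = g^[n % q] x := fun x hx n =>
    ((Function.IsPeriodicPt.iterate_mod_apply (f := g) hx n)).symm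
  have hinj : ∀ x y : X, g^[q] x = x → g^[q] y = y → dist x y < δ → x = y := by
    intro x y hx hy hd
    have h1 : ∀ n : ℕ, dist (g^[n] x) (g^[n] y) ≤ ε := by
      intro n
      rw [hper x hx, hper y hy]
      have h2 := huc hd
      have h3 := dist_le_pi_dist (fun k : Fin q => g^[(k : ℕ)] x) (fun k : Fin q => g^[(k : ℕ)] y)
        ⟨n % q, Nat.mod_lt _ (by omega)⟩
      exact h3.trans h2.le
    have hb : ∀ z : X, g^[q] z = z → ∀ n : ℕ, g.symm^[n] z = g^[q * n - n] z := by
      intro z hz n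
      have h2 : g^[q * n] z = z := by
        have := Function.IsPeriodicPt.mul_const (f := g) (x := z) hz n
        exact this
      have h3 : n + (q * n - n) = q * n := by
        have : n ≤ q * n := Nat.le_mul_of_pos_left n (by omega)
        omega
      have h4 : g^[n] (g^[q * n - n] z) = z := by
        rw [← Function.iterate_add_apply, h3, h2]
      have h5 := iterL g n (g^[q * n - n] z)
      rw [h4] at h5
      exact h5
    apply c1.expans h1
    intro n
    rw [hb x hx, hb y hy]
    exact h1 _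
  obtain ⟨t, -, ht, hcov⟩ := (isCompact_univ (X := X)).finite_cover_balls (half_pos hδ)
  have hch : ∀ x : X, ∃ c ∈ t, dist x c < δ / 2 := by
    intro x
    have := hcov (mem_univ x)
    simp only [mem_iUnion, mem_ball, exists_prop] at this
    exact this
  choose c hc hcd using hch
  refine Set.Finite.of_injOn (f := c) (fun x _ => hc x) (fun x hx y hy hxy => ?_) ht
  apply hinj x y hx hy
  have h1 := hcd x
  have h2 := hcd y
  have hxy' : c x = c y := hxy
  rw [← hxy', dist_comm] at h2
  have := dist_triangle x (c x) y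
  linarith

/-- a common period for the whole group -/
theorem exists_common [CompactSpace X] (H : FD act e T B S S' a a' Fm Fp) {p : X} {q : ℕ}
    (hq : 1 ≤ q) (hp : (act a)^[q] p = p) : ∃ N₀ ≥ 1, ∀ g, act (N₀ • g) p = p := by
  have hfin := H.per_finite hq
  have := hfin.to_subtype
  have hinv : ∀ g (x : X), (act a)^[q] x = x → (act a)^[q] (act g x) = act g x := by
    intro g x hx
    rw [← H.sa.nsmul, H.sa.comm, H.sa.nsmul, hx]
  let σ : G → Equiv.Perm {x : X | (act a)^[q] x = x} := fun g =>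
    { toFun := fun x => ⟨act g x.1, hinv g x.1 x.2⟩
      invFun := fun x => ⟨act (-g) x.1, hinv (-g) x.1 x.2⟩
      left_inv := fun x => Subtype.ext (by
        show act (-g) (act g x.1) = x.1
        rw [← H.sa.add, neg_add_cancel, H.sa.zero])
      right_inv := fun x => Subtype.ext (by
        show act g (act (-g) x.1) = x.1
        rw [← H.sa.add, add_neg_cancel, H.sa.zero]) }
  have hpow : ∀ g (n : ℕ) (x : {x : X | (act a)^[q] x = x}),
      ((σ g ^ n) x).1 = act (n • g) x.1 := by
    intro g n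
    induction n with
    | zero => intro x; rw [zero_nsmul, H.sa.zero, pow_zero]; rfl
    | succ n ih =>
      intro x
      rw [pow_succ, succ_nsmul, H.sa.add, Equiv.Perm.mul_apply, ih]
      rfl
  refine ⟨Nat.card (Equiv.Perm {x : X | (act a)^[q] x = x}), Nat.card_pos, fun g => ?_⟩
  have h1 := hpow g (Nat.card (Equiv.Perm {x : X | (act a)^[q] x = x})) ⟨p, hp⟩
  rw [pow_card_eq_one'] at h1
  exact h1.symm

end FD

end Pool.Agent.Y330.F
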