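import Pool.Agent.H66.L.S8.Y330.F.D5
import Pool.Agent.H66.L.S8.Y330.F.B1

set_option autoImplicit false
set_option linter.unusedSectionVars false

open Filter Topology Set Metric
open scoped InnerProductSpace

namespace Pool.Agent.Y330.F

open Pool.Agent.H789R2.AN Pool.Agent.Y330.G Pool.Agent.H721R2

open LF (sc)

variable {X : Type*} [MetricSpace X] {E : Type*} [NormedAddCommGroup E] [InnerProductSpace ℝ E]
  {G : Type*} [AddCommGroup G] {J : Type*}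

/-- Sign data: `f` detects contraction of the two line fields by regular elements, at their fixed
points. -/
structure SG (χ : J → G →+ ℝ) (act : G → X ≃ₜ X) (B : G → X → E →ₗ[ℝ] E)
    (Fm Fp : X → Submodule ℝ E) (f : G →+ ℝ) (a a' : G) : Prop where
  ra : ∀ l, χ l a ≠ 0
  ra' : ∀ l, χ l a' ≠ 0
  fa : 0 < f a
  fa' : f a' < 0
  dense : Dense (range f)
  cm : ∀ b, (∀ l, χ l b ≠ 0) → 0 < f b → ∀ p, act b p = p → ∀ v ∈ Fm p, v ≠ 0 →
    ∀ r : ℝ, B b p v = r • v → |r| < 1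
  cp : ∀ b, (∀ l, χ l b ≠ 0) → f b < 0 → ∀ p, act b p = p → ∀ v ∈ Fp p, v ≠ 0 →
    ∀ r : ℝ, B b p v = r • v → |r| < 1

theorem SG.symm {χ : J → G →+ ℝ} {act : G → X ≃ₜ X} {B : G → X → E →ₗ[ℝ] E}
    {Fm Fp : X → Submodule ℝ E} {f : G →+ ℝ} {a a' : G} (H : SG χ act B Fm Fp f a a') :
    SG χ act B Fp Fm (-f) a' a where
  ra := H.ra'
  ra' := H.ra
  fa := by
    show 0 < - f a'
    linarith [H.fa']
  fa' := by
    show - f a < 0
    linarith [H.fa]
  dense := by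
    have h1 := (Homeomorph.neg ℝ).surjective.denseRange.dense_image
      (Homeomorph.neg ℝ).continuous H.dense
    rw [← range_comp] at h1
    exact h1
  cm := fun b hb h => H.cp b hb (by
    have h' : 0 < - f b := h
    linarith)
  cp := fun b hb h => H.cm b hb (by
    have h' : - f b < 0 := h
    linarith)

/-- A contracted line field has a positive exponent. -/
theorem mult_pos {act : G → X ≃ₜ X} {B : G → X → E →ₗ[ℝ] E} {F : X → Submodule ℝ E}
    {χ : J → G →+ ℝ} {f : G →+ ℝ} {p : X} {N : ℕ} (hN : 1 ≤ N) (hp : ∀ g, act (N • g) p = p)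
    {τ : G →+ ℝ} (hτ : ∀ g, ∀ u ∈ F p, B (N • g) p u = Real.exp (-τ g) • u) {u : E}
    (hu : u ∈ F p) (hu0 : u ≠ 0)
    (h : ∀ b, (∀ l, χ l b ≠ 0) → 0 < f b → ∀ p, act b p = p → ∀ v ∈ F p, v ≠ 0 →
      ∀ r : ℝ, B b p v = r • v → |r| < 1) {b : G} (hb : ∀ l, χ l b ≠ 0) (hf : 0 < f b) :
    0 < τ b := by
  have hN0 : (0 : ℝ) < N := by exact_mod_cast hN
  have h1 := h (N • b) (fun l => by
    rw [map_nsmul, nsmul_eq_mul]
    exact mul_ne_zero hN0.ne' (hb l)) (by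
    rw [map_nsmul, nsmul_eq_mul]
    exact mul_pos hN0 hf) p (hp b) u hu hu0 _ (hτ b u hu)
  rw [abs_of_pos (Real.exp_pos _), Real.exp_lt_one_iff] at h1
  linarith

/-- Lower semicontinuity of a closed line field. -/
theorem line_lsc [FiniteDimensional ℝ E] {F : X → Submodule ℝ E}
    (hl : ∀ x, ∃ u ∈ F x, u ≠ 0 ∧ ∀ v ∈ F x, ∃ r : ℝ, v = r • u)
    (hc : IsClosed {p : X × E | p.2 ∈ F p.1}) {κ : Type*} {l : Filter κ} {x : κ → X} {x₀ : X}
    (hx : Tendsto x l (𝓝 x₀)) {u : E} (hu : u ∈ F x₀) :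
    ∃ v : κ → E, (∀ k, v k ∈ F (x k)) ∧ Tendsto v l (𝓝 u) := by
  have hw : ∀ y : X, ∃ w ∈ F y, ‖w‖ = 1 := by
    intro y
    obtain ⟨w, hw, hw0, -⟩ := hl y
    refine ⟨‖w‖⁻¹ • w, (F y).smul_mem _ hw, ?_⟩
    rw [norm_smul, norm_inv, norm_norm, inv_mul_cancel₀ (norm_ne_zero_iff.mpr hw0)]
  choose w hw1 hw2 using hw
  refine ⟨fun k => ⟪u, w (x k)⟫_ℝ • w (x k), fun k => (F _).smul_mem _ (hw1 _), ?_⟩
  rw [tendsto_iff_ultrafilter]
  intro U hU
  obtain ⟨v, -, hv⟩ := (isCompact_sphere (0 : E) 1).ultrafilter_le_nhds'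
    (U.map fun k => w (x k)) (by
      rw [Ultrafilter.mem_map]
      exact Filter.univ_mem' fun k => by
        show w (x k) ∈ sphere (0 : E) 1
        rw [mem_sphere_zero_iff_norm]
        exact hw2 _)
  have hv' : Tendsto (fun k => w (x k)) U (𝓝 v) := hv
  have hvF : v ∈ F x₀ := hc.mem_of_tendsto ((hx.mono_left hU).prodMk_nhds hv')
    (Eventually.of_forall fun k => hw1 _)
  have hv1 : ‖v‖ = 1 := by
    have h1 := hv'.norm
    have h2 : Tendsto (fun k => ‖w (x k)‖) U (𝓝 1) :=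
      tendsto_const_nhds.congr fun k => (hw2 _).symm
    exact tendsto_nhds_unique h1 h2
  have hus : ⟪u, v⟫_ℝ • v = u := by
    obtain ⟨g, hg, hg0, hlg⟩ := hl x₀
    obtain ⟨r, hr⟩ := hlg u hu
    obtain ⟨s, hs⟩ := hlg v hvF
    have hs0 : s ≠ 0 := by
      rintro rfl
      rw [hs, zero_smul, norm_zero] at hv1
      exact zero_ne_one hv1
    have huv : u = (r / s) • v := by rw [hr, hs, smul_smul, div_mul_cancel₀ _ hs0]
    rw [huv, real_inner_smul_left, real_inner_self_eq_norm_sq, hv1]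
    simp
  have h3 : Tendsto (fun k => ⟪u, w (x k)⟫_ℝ • w (x k)) U (𝓝 (⟪u, v⟫_ℝ • v)) :=
    (tendsto_const_nhds.inner hv').smul hv'
  rwa [hus] at h3

namespace FD

variable {act : G → X ≃ₜ X} {e : X → E} {T : X → Submodule ℝ E} {B : G → X → E →ₗ[ℝ] E}
  {S S' : HypSys X E} {a a' : G} {Fm Fp : X → Submodule ℝ E} {χ : J → G →+ ℝ} {f : G →+ ℝ}

theorem exPP [Finite J] [CompactSpace X] (H : FD act e T B S S' a a' Fm Fp)
    (Sg : SG χ act B Fm Fp f a a') {p : X} {q : ℕ} (hq : 1 ≤ q) (hp : (act a)^[q] p = p) {u : E}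
    (hu : u ∈ Fm p) (hu0 : u ≠ 0) :
    ∃ N τ c n, PP act e T B S S' a a' Fm Fp p N τ c u n := by
  obtain ⟨N₀, hN₀, hfix⟩ := H.exists_common hq hp
  obtain ⟨τ, hτ⟩ := exists_mult H.sa H.mT H.lm H.im hfix
  obtain ⟨τp, hτp⟩ := exists_mult H.sa H.pT H.lp H.ip hfix
  obtain ⟨w, hw, hw0, -⟩ := H.lp p
  have hN : 1 ≤ 2 * N₀ := by omega
  have hfix2 : ∀ g, act ((2 * N₀) • g) p = p := fun g => by
    rw [two_mul, add_smul, H.sa.add, hfix, hfix]
  obtain ⟨κ, hκ, h1⟩ := prop_lem χ f τ a Sg.ra Sg.fa fun b hb hfb =>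
    mult_pos hN hfix2 hτ hu hu0 Sg.cm hb hfb
  obtain ⟨κ', hκ', h2⟩ := prop_lem χ (-f) τp a' Sg.ra' (by
    show 0 < - f a'
    linarith [Sg.fa']) fun b hb hfb =>
    mult_pos hN hfix2 hτp hw hw0 Sg.symm.cm hb hfb
  have h2' : ∀ g, τp g = - (κ' * f g) := fun g => by
    rw [h2 g]
    show κ' * (- f g) = _
    ring
  refine ⟨2 * N₀, τ, κ' / κ, ‖w‖⁻¹ • w, {
    fd := H
    hN := hN
    fix := hfix2
    um := hu
    u0 := hu0
    mulm := hτ
    np := (Fp p).smul_mem _ hw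
    n1 := by rw [norm_smul, norm_inv, norm_norm, inv_mul_cancel₀ (norm_ne_zero_iff.mpr hw0)]
    mulp := fun g v hv => by
      rw [hτp g v hv, h2', h1, neg_neg]
      congr 2
      field_simp
    dense := ?_
    ta := by rw [h1]; exact mul_pos hκ Sg.fa
    ta' := by rw [h1]; exact mul_neg_of_pos_of_neg hκ Sg.fa' }⟩
  have h3 := (Homeomorph.mulLeft₀ κ hκ.ne').surjective.denseRange.dense_image
    (Homeomorph.mulLeft₀ κ hκ.ne').continuous Sg.dense
  rw [← range_comp] at h3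
  have h4 : range ((Homeomorph.mulLeft₀ κ hκ.ne') ∘ f) = range τ := by
    congr 1
    funext g
    exact (h1 g).symm
  rw [h4] at h3
  exact h3

/-- **Saturation** of invariant attractors along the line field. -/
theorem satAll [Finite J] [CompactSpace X] [FiniteDimensional ℝ E]
    (H : FD act e T B S S' a a' Fm Fp) (Sg : SG χ act B Fm Fp f a a') {ε₀ C Λ : ℝ}
    (L : LF (act a) (act a').symm e Fm (B a) ε₀ C Λ) {A : Set X} (hA : IsAtt (act a) A)
    (hAi : ∀ g x, act g x ∈ A ↔ x ∈ A)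
    (hper : ∀ x ∈ A, ∀ ρ > 0, ∃ p ∈ A, dist p x < ρ ∧ ∃ q : ℕ, 1 ≤ q ∧ (act a)^[q] p = p)
    {x y : X} (hx : x ∈ A) (hxy : LW (act a) (act a').symm (sc ε₀ C Λ) x y) : y ∈ A := by
  by_cases hne : x = y
  · rwa [← hne]
  obtain ⟨u₀, hu₀, hu₀0, -⟩ := H.lm x
  have hr := L.TT_ne hxy hne hu₀ hu₀0
  set r := TT (act a) (B a) e x u₀ y with hrdef
  have hu : r • u₀ ∈ Fm x := (Fm x).smul_mem _ hu₀
  have hu0 : r • u₀ ≠ 0 := smul_ne_zero hr hu₀0
  have hT : TT (act a) (B a) e x (r • u₀) y = 1 := by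
    rw [L.TT_smul hxy hu₀ hu₀0, ← hrdef, div_self hr]
  have hy := L.YY_eq hu hu0 hxy hT
  have hseq : ∀ k : ℕ, ∃ p ∈ A, dist p x < 1 / ((k : ℝ) + 1) ∧
      ∃ q : ℕ, 1 ≤ q ∧ (act a)^[q] p = p := fun k => hper x hx _ (by positivity)
  choose pk hpA hpd q hq hqp using hseq
  have hpl : Tendsto pk atTop (𝓝 x) := by
    rw [tendsto_iff_dist_tendsto_zero]
    exact squeeze_zero (fun _ => dist_nonneg) (fun k => (hpd k).le)
      tendsto_one_div_add_atTop_nhds_zero_nat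
  obtain ⟨v, hv, hvl⟩ := line_lsc H.lm L.clF hpl hu
  have hne' : ∀ᶠ k in atTop, v k ≠ 0 := hvl.eventually_ne hu0
  have hmem : ∀ᶠ k in atTop,
      YY (act a) (act a').symm (sc ε₀ C Λ) (B a) e (pk k) (v k) 1 ∈ A := by
    filter_upwards [hne'] with k hk
    obtain ⟨N, τ, c, n, P⟩ := H.exPP Sg (hq k) (hqp k) (hv k) hk
    have h1 := P.sat L hA hAi (hpA k)
    unfold zz at h1
    rwa [neg_zero, Real.exp_zero] at h1
  have hlim := L.YY_tendsto (r := fun _ : ℕ => (1 : ℝ)) hpl hvl tendsto_const_nhds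
    (Eventually.of_forall hv) hu hu0
  rw [hy] at hlim
  exact hA.closed.mem_of_tendsto hlim hmem

/-- **Crossing the wall**: invariant attractors of `a` are attractors of `a'`. -/
theorem cross [Finite J] [CompactSpace X] [FiniteDimensional ℝ E]
    (H : FD act e T B S S' a a' Fm Fp) (Sg : SG χ act B Fm Fp f a a') {A : Set X}
    (hA : IsAtt (act a) A) (hAi : ∀ g x, act g x ∈ A ↔ x ∈ A)
    (hmin : ∀ x ∈ A, ∃ A₀ ⊆ A, x ∈ A₀ ∧ MinAtt (act a) A₀) : IsAtt (act a') A := by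
  have hper : ∀ x ∈ A, ∀ ρ > 0, ∃ p ∈ A, dist p x < ρ ∧ ∃ q : ℕ, 1 ≤ q ∧ (act a)^[q] p = p := by
    intro x hx ρ hρ
    obtain ⟨A₀, hA₀, hx₀, hm⟩ := hmin x hx
    obtain ⟨p, hp, hd, q, hq, hqp⟩ := per_dense S (by rw [H.hg]; exact hm) hx₀ hρ
    rw [H.hg] at hqp
    exact ⟨p, hA₀ hp, hd, q, hq, hqp⟩
  obtain ⟨ε₀, C, Λ, L⟩ := H.lfm
  obtain ⟨εc, hεc, c1, c2, c3, c4⟩ := H.ctr4
  set ε := min ε₀ εc with hε
  obtain ⟨δ, hδ, hbrk⟩ := brk (g := act a) (h := (act a').symm) hεc (fun x => by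
    simp only [← H.sa.neg]
    exact H.sa.comm _ _ x) c1 H.lprS (lt_min L.pos hεc)
  have hloc : ∀ x ∈ A, ∀ y, SR (act a').symm δ x y → y ∈ A := by
    intro x hx y hxy
    obtain ⟨v, h1, h2, h3⟩ := hbrk x y hxy
    have hv : v ∈ A := H.satAll Sg L hA hAi hper hx
      (L.W_of ⟨h1.mono (min_le_left _ _), h3.mono (min_le_left _ _)⟩)
    exact hA.sat v hv y (c2.ws (h2.mono (min_le_right _ _))).symm'
  refine ⟨hA.closed, hA.nonempty, fun x => hAi a' x, ?_⟩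
  intro x hx y hxy
  obtain ⟨m, hm⟩ := hxy.eventually_lt hδ
  have hit : ∀ z, (act a').symm^[m] z ∈ A ↔ z ∈ A := fun z => by
    rw [← H.sa.negH, ← H.sa.nsmul]
    exact hAi _ z
  rw [← hit]
  refine hloc _ ((hit x).mpr hx) _ fun k => ?_
  rw [← Function.iterate_add_apply, ← Function.iterate_add_apply]
  exact (hm _ (Nat.le_add_left _ _)).le

theorem tot_sub [Finite J] [CompactSpace X] [Nonempty X] [FiniteDimensional ℝ E]
    (H : FD act e T B S S' a a' Fm Fp) (Sg : SG χ act B Fm Fp f a a') :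
    Tot (act a') ⊆ Tot (act a) := by
  obtain ⟨cc, hLP⟩ := H.exLP
  obtain ⟨cc', hLP'⟩ := H.symm.exLP
  have htot : IsAtt (act a) (Tot (act a)) :=
    (tot_att (φ := act a) hLP (fun x => rfl)).1
  have hti : ∀ g x, act g x ∈ Tot (act a) ↔ x ∈ Tot (act a) := fun g =>
    (tot_att (φ := act g) hLP (fun x => H.sa.comm g a x)).2
  have hT' : IsAtt (act a') (Tot (act a)) := by
    refine H.cross Sg htot hti ?_
    rintro x ⟨A₀, hA₀, hx⟩
    exact ⟨A₀, subset_sUnion_of_mem hA₀, hx, hA₀⟩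
  apply sUnion_subset
  intro B' hB'
  by_cases hmeet : (B' ∩ Tot (act a)).Nonempty
  · exact MinAtt.subset_of_meet hB' hT' hmeet
  exfalso
  have hdisj : Disjoint B' (Tot (act a)) := by
    rw [Set.disjoint_iff_inter_eq_empty]
    exact not_nonempty_iff_eq_empty.mp hmeet
  have hB'm : B' ∈ {A | MinAtt (act a') A ∧ Disjoint A (Tot (act a))} := ⟨hB', hdisj⟩
  have hne : (⋃₀ {A | MinAtt (act a') A ∧ Disjoint A (Tot (act a))}).Nonempty :=
    hB'.1.nonempty.mono (subset_sUnion_of_mem hB'm)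
  have h1 : IsAtt (act a') (⋃₀ {A | MinAtt (act a') A ∧ Disjoint A (Tot (act a))}) :=
    (sub_att (φ := act a') hLP' (fun x => rfl) _ (hti a') hne).1
  have h2 : ∀ g x, act g x ∈ ⋃₀ {A | MinAtt (act a') A ∧ Disjoint A (Tot (act a))} ↔
      x ∈ ⋃₀ {A | MinAtt (act a') A ∧ Disjoint A (Tot (act a))} := fun g =>
    (sub_att (φ := act g) hLP' (fun x => H.sa.comm g a' x) _ (hti g) hne).2
  have h3 : IsAtt (act a) (⋃₀ {A | MinAtt (act a') A ∧ Disjoint A (Tot (act a))}) := by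
    refine H.symm.cross Sg.symm h1 h2 ?_
    rintro x ⟨A₀, hA₀, hx⟩
    exact ⟨A₀, subset_sUnion_of_mem hA₀, hx, hA₀.1⟩
  obtain ⟨B₀, hB₀, hm⟩ := exists_minAtt h3
  obtain ⟨z, hz⟩ := hm.1.nonempty
  have hz1 : z ∈ Tot (act a) := subset_sUnion_of_mem (show B₀ ∈ {A | MinAtt (act a) A} from hm) hz
  obtain ⟨A₁, hA₁, hzA⟩ := hB₀ hz
  exact Set.disjoint_left.mp hA₁.2 hzA hz1

/-- **Wall crossing**: the total attractors on the two sides coincide. -/
theorem tot_eq' [Finite J] [CompactSpace X] [Nonempty X] [FiniteDimensional ℝ E]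
    (H : FD act e T B S S' a a' Fm Fp) (Sg : SG χ act B Fm Fp f a a') :
    Tot (act a) = Tot (act a') :=
  (H.symm.tot_sub Sg.symm).antisymm (H.tot_sub Sg)

end FD

end Pool.Agent.Y330.F
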